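import Mathlib.Algebra.Notation.Lemmas
import Mathlib.Data.Nat.Choose.Bounds
import Mathlib.Data.Nat.Choose.Vandermonde
import Mathlib.Topology.Sheaves.Presheaf
import Mathlib.Tactic.Monotonicity.Lemmas
import Mathlib.Data.Int.Star
import Mathlib.Algebra.Order.Ring.Star
import Mathlib.Analysis.SpecificLimits.Basic
import Mathlib.Algebra.Order.Star.Real
import Mathlib.Combinatorics.SimpleGraph.Basic
import Mathlib.Combinatorics.Enumerative.DoubleCounting
import Mathlib.RingTheory.PiTensorProduct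
import Mathlib.Tactic.Algebra.Basic

-- ======== part 0: formerly Pool.Agent.MP_217c9a_co.Shift
section MrgPart0

/-
Shifting of pairs of uniform families.
-/

set_option autoImplicit false

open Finset

namespace Pool.Agent.MP_217c9a_co

/-- All members are a-subsets of range n. -/
def Unif (n a : ℕ) (𝒜 : Finset (Finset ℕ)) : Prop := ∀ A ∈ 𝒜, A ⊆ range n ∧ A.card = a

/-- Cross r-intersecting families. -/
def Cross (r : ℕ) (𝒜 ℬ : Finset (Finset ℕ)) : Prop := ∀ A ∈ 𝒜, ∀ B ∈ ℬ, r ≤ (A ∩ B).card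

/-- Shifted families. -/
def Shifted (𝒜 : Finset (Finset ℕ)) : Prop :=
  ∀ A ∈ 𝒜, ∀ i j, i < j → j ∈ A → i ∉ A → insert i (A.erase j) ∈ 𝒜

theorem Cross.symm {r : ℕ} {𝒜 ℬ : Finset (Finset ℕ)} (h : Cross r 𝒜 ℬ) : Cross r ℬ 𝒜 :=
  fun B hB A hA => by rw [inter_comm]; exact h A hA B hB

/-- The shift of one set inside a family. -/
def shiftSet (𝒜 : Finset (Finset ℕ)) (i j : ℕ) (A : Finset ℕ) : Finset ℕ :=
  if j ∈ A ∧ i ∉ A ∧ insert i (A.erase j) ∉ 𝒜 then insert i (A.erase j) else A

/-- The shift of a family. -/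
def shiftFam (i j : ℕ) (𝒜 : Finset (Finset ℕ)) : Finset (Finset ℕ) := 𝒜.image (shiftSet 𝒜 i j)

theorem card_insert_erase {A : Finset ℕ} {i j : ℕ} (hj : j ∈ A) (hi : i ∉ A) :
    (insert i (A.erase j)).card = A.card := by
  rw [card_insert_of_notMem (fun h => hi (mem_of_mem_erase h)), card_erase_add_one hj]

theorem shiftSet_injOn (𝒜 : Finset (Finset ℕ)) (i j : ℕ) :
    Set.InjOn (shiftSet 𝒜 i j) 𝒜 := by
  intro A hA B hB h
  unfold shiftSet at h
  split_ifs at h with h1 h2 h2
  · have e : A.erase j = B.erase j := by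
      have : (insert i (A.erase j)).erase i = (insert i (B.erase j)).erase i := by rw [h]
      rwa [erase_insert (fun h => h1.2.1 (mem_of_mem_erase h)),
        erase_insert (fun h => h2.2.1 (mem_of_mem_erase h))] at this
    rw [← insert_erase h1.1, ← insert_erase h2.1, e]
  · exact absurd (h ▸ hB) h1.2.2
  · exact absurd (h ▸ hA) h2.2.2
  · exact h

theorem card_shiftFam (i j : ℕ) (𝒜 : Finset (Finset ℕ)) : (shiftFam i j 𝒜).card = 𝒜.card :=
  card_image_of_injOn (shiftSet_injOn 𝒜 i j)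

theorem Unif.shiftFam {n a : ℕ} {𝒜 : Finset (Finset ℕ)} (h : Unif n a 𝒜) {i j : ℕ} (hij : i < j) :
    Unif n a (shiftFam i j 𝒜) := by
  intro S hS
  obtain ⟨A, hA, rfl⟩ := mem_image.1 hS
  unfold shiftSet
  split_ifs with h1
  · refine ⟨?_, by rw [card_insert_erase h1.1 h1.2.1]; exact (h A hA).2⟩
    intro x hx
    rcases mem_insert.1 hx with rfl | hx
    · have := mem_range.1 ((h A hA).1 h1.1)
      exact mem_range.2 (by omega)
    · exact (h A hA).1 (mem_of_mem_erase hx)
  · exact h A hA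

theorem cross_aux {r : ℕ} {𝒜 ℬ : Finset (Finset ℕ)} (h : Cross r 𝒜 ℬ) {i j : ℕ}
    {A B : Finset ℕ} (hA : A ∈ 𝒜) (hB : B ∈ ℬ) (hj : j ∈ A) (hi : i ∉ A)
    (hB' : ¬ (j ∈ B ∧ i ∉ B ∧ insert i (B.erase j) ∉ ℬ)) :
    r ≤ (insert i (A.erase j) ∩ B).card := by
  by_cases hjB : j ∈ B
  · by_cases hiB : i ∈ B
    · have e : insert i (A.erase j) ∩ B = insert i ((A ∩ B).erase j) := by
        ext x; simp only [mem_inter, mem_insert, mem_erase]
        constructor
        · rintro ⟨h1 | h1, h2⟩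
          · exact Or.inl h1
          · exact Or.inr ⟨h1.1, h1.2, h2⟩
        · rintro (h1 | h1)
          · exact ⟨Or.inl h1, h1 ▸ hiB⟩
          · exact ⟨Or.inr ⟨h1.1, h1.2.1⟩, h1.2.2⟩
      rw [e, card_insert_erase (mem_inter.2 ⟨hj, hjB⟩) (fun h => hi (mem_inter.1 h).1)]
      exact h A hA B hB
    · have h2 : insert i (B.erase j) ∈ ℬ := by
        by_contra hc; exact hB' ⟨hjB, hiB, hc⟩
      refine le_trans (h A hA _ h2) (card_le_card ?_)
      intro x hx
      simp only [mem_inter, mem_insert, mem_erase] at hx ⊢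
      rcases hx with ⟨h1, h3 | h3⟩
      · exact absurd (h3 ▸ h1) hi
      · exact ⟨Or.inr ⟨h3.1, h1⟩, h3.2⟩
  · refine le_trans (h A hA B hB) (card_le_card ?_)
    intro x hx
    simp only [mem_inter, mem_insert, mem_erase] at hx ⊢
    exact ⟨Or.inr ⟨fun e => hjB (e ▸ hx.2), hx.1⟩, hx.2⟩

theorem Cross.shiftFam {r : ℕ} {𝒜 ℬ : Finset (Finset ℕ)} (h : Cross r 𝒜 ℬ) (i j : ℕ) :
    Cross r (shiftFam i j 𝒜) (shiftFam i j ℬ) := by
  intro S hS T hT
  obtain ⟨A, hA, rfl⟩ := mem_image.1 hS
  obtain ⟨B, hB, rfl⟩ := mem_image.1 hT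
  unfold shiftSet
  split_ifs with h1 h2 h2
  · have e : insert i (A.erase j) ∩ insert i (B.erase j) = insert i ((A ∩ B).erase j) := by
      ext x; simp only [mem_inter, mem_insert, mem_erase]; tauto
    rw [e, card_insert_erase (mem_inter.2 ⟨h1.1, h2.1⟩) (fun h => h1.2.1 (mem_inter.1 h).1)]
    exact h A hA B hB
  · exact cross_aux h hA hB h1.1 h1.2.1 h2
  · rw [inter_comm]; exact cross_aux h.symm hB hA h2.1 h2.2.1 h1
  · exact h A hA B hB

/-- The total weight of a family. -/
def wt (𝒜 : Finset (Finset ℕ)) : ℕ := ∑ A ∈ 𝒜, ∑ x ∈ A, x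

theorem sum_shift_lt {A : Finset ℕ} {i j : ℕ} (hij : i < j) (hj : j ∈ A) (hi : i ∉ A) :
    ∑ x ∈ insert i (A.erase j), x < ∑ x ∈ A, x := by
  rw [sum_insert (fun h => hi (mem_of_mem_erase h)), ← add_sum_erase A _ hj]
  omega

theorem sum_shiftSet_le (𝒜 : Finset (Finset ℕ)) {i j : ℕ} (hij : i < j) (A : Finset ℕ) :
    ∑ x ∈ shiftSet 𝒜 i j A, x ≤ ∑ x ∈ A, x := by
  unfold shiftSet
  split_ifs with h1
  · exact (sum_shift_lt hij h1.1 h1.2.1).le
  · exact le_rfl

theorem wt_shiftFam_le (𝒜 : Finset (Finset ℕ)) {i j : ℕ} (hij : i < j) :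
    wt (shiftFam i j 𝒜) ≤ wt 𝒜 := by
  unfold wt shiftFam
  rw [sum_image (shiftSet_injOn 𝒜 i j)]
  exact sum_le_sum fun A _ => sum_shiftSet_le 𝒜 hij A

theorem wt_shiftFam_lt (𝒜 : Finset (Finset ℕ)) {i j : ℕ} (hij : i < j) {A : Finset ℕ}
    (hA : A ∈ 𝒜) (hj : j ∈ A) (hi : i ∉ A) (h : insert i (A.erase j) ∉ 𝒜) :
    wt (shiftFam i j 𝒜) < wt 𝒜 := by
  unfold wt shiftFam
  rw [sum_image (shiftSet_injOn 𝒜 i j)]
  refine sum_lt_sum (fun A _ => sum_shiftSet_le 𝒜 hij A) ⟨A, hA, ?_⟩
  unfold shiftSet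
  rw [if_pos ⟨hj, hi, h⟩]
  exact sum_shift_lt hij hj hi

/-- The degree of a vertex. -/
def dg (𝒜 : Finset (Finset ℕ)) (v : ℕ) : ℕ := (𝒜.filter fun A => v ∈ A).card

theorem dg_shiftFam_le (𝒜 : Finset (Finset ℕ)) (i j v : ℕ) :
    dg (shiftFam i j 𝒜) v ≤ dg 𝒜 v + dg 𝒜 j := by
  unfold dg shiftFam
  refine le_trans (card_le_card (t := ((𝒜.filter fun A => v ∈ A) ∪ (𝒜.filter fun A => j ∈ A)).image
    (shiftSet 𝒜 i j)) ?_) (le_trans card_image_le (card_union_le _ _))
  intro S hS
  obtain ⟨hS1, hS2⟩ := mem_filter.1 hS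
  obtain ⟨A, hA, rfl⟩ := mem_image.1 hS1
  refine mem_image.2 ⟨A, ?_, rfl⟩
  unfold shiftSet at hS2
  split_ifs at hS2 with h1
  · exact mem_union_right _ (mem_filter.2 ⟨hA, h1.1⟩)
  · exact mem_union_left _ (mem_filter.2 ⟨hA, hS2⟩)

/-- Shift a pair as long as a given property survives. -/
theorem exists_shifted_or (Q : Finset (Finset ℕ) → Finset (Finset ℕ) → Prop) {n a b r : ℕ}
    (𝒜 ℬ : Finset (Finset ℕ)) (hA : Unif n a 𝒜) (hB : Unif n b ℬ) (hc : Cross r 𝒜 ℬ)
    (hQ : Q 𝒜 ℬ) :
    ∃ 𝒜' ℬ' : Finset (Finset ℕ), Unif n a 𝒜' ∧ Unif n b ℬ' ∧ Cross r 𝒜' ℬ' ∧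
      𝒜'.card = 𝒜.card ∧ ℬ'.card = ℬ.card ∧ Q 𝒜' ℬ' ∧
      ((Shifted 𝒜' ∧ Shifted ℬ') ∨ ∃ i j, i < j ∧ ¬ Q (shiftFam i j 𝒜') (shiftFam i j ℬ')) := by
  induction hw : wt 𝒜 + wt ℬ using Nat.strong_induction_on generalizing 𝒜 ℬ with
  | _ w ih =>
  by_cases h1 : (Shifted 𝒜 ∧ Shifted ℬ) ∨ ∃ i j, i < j ∧ ¬ Q (shiftFam i j 𝒜) (shiftFam i j ℬ)
  · exact ⟨𝒜, ℬ, hA, hB, hc, rfl, rfl, hQ, h1⟩
  rw [not_or] at h1
  obtain ⟨h1, h2⟩ := h1
  push Not at h2
  have key : ∃ i j, i < j ∧ wt (shiftFam i j 𝒜) + wt (shiftFam i j ℬ) < wt 𝒜 + wt ℬ := by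
    rw [not_and_or] at h1
    rcases h1 with h1 | h1
    · unfold Shifted at h1
      push Not at h1
      obtain ⟨A, hA', i, j, hij, hj, hi, h⟩ := h1
      exact ⟨i, j, hij, add_lt_add_of_lt_of_le (wt_shiftFam_lt 𝒜 hij hA' hj hi h)
        (wt_shiftFam_le ℬ hij)⟩
    · unfold Shifted at h1
      push Not at h1
      obtain ⟨A, hA', i, j, hij, hj, hi, h⟩ := h1
      exact ⟨i, j, hij, add_lt_add_of_le_of_lt (wt_shiftFam_le 𝒜 hij)
        (wt_shiftFam_lt ℬ hij hA' hj hi h)⟩
  obtain ⟨i, j, hij, hlt⟩ := key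
  obtain ⟨𝒜', ℬ', g1, g2, g3, g4, g5, g6, g7⟩ := ih _ (hw ▸ hlt) (shiftFam i j 𝒜)
    (shiftFam i j ℬ) (hA.shiftFam hij) (hB.shiftFam hij) (hc.shiftFam i j) (h2 i j hij) rfl
  exact ⟨𝒜', ℬ', g1, g2, g3, by rw [g4, card_shiftFam], by rw [g5, card_shiftFam], g6, g7⟩

theorem exists_shifted {n a b r : ℕ}
    (𝒜 ℬ : Finset (Finset ℕ)) (hA : Unif n a 𝒜) (hB : Unif n b ℬ) (hc : Cross r 𝒜 ℬ) :
    ∃ 𝒜' ℬ' : Finset (Finset ℕ), Unif n a 𝒜' ∧ Unif n b ℬ' ∧ Cross r 𝒜' ℬ' ∧
      𝒜'.card = 𝒜.card ∧ ℬ'.card = ℬ.card ∧ Shifted 𝒜' ∧ Shifted ℬ' := by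
  obtain ⟨𝒜', ℬ', g1, g2, g3, g4, g5, -, g7⟩ :=
    exists_shifted_or (fun _ _ => True) 𝒜 ℬ hA hB hc trivial
  rcases g7 with g7 | ⟨i, j, -, h⟩
  · exact ⟨𝒜', ℬ', g1, g2, g3, g4, g5, g7.1, g7.2⟩
  · exact absurd trivial h

end Pool.Agent.MP_217c9a_co

end MrgPart0

-- ======== part 1: formerly Pool.Agent.MP_217c9a_co.Walk
section MrgPart1

/-
Frankl's walk lemma for shifted cross-intersecting families and its consequences.
-/

set_option autoImplicit false

open Finset

namespace Pool.Agent.MP_217c9a_co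

/-- The binomial coefficient C(n, a - j), read as zero when j exceeds a. -/
def ch (n a j : ℕ) : ℕ := if j ≤ a then n.choose (a - j) else 0

theorem frankl_walk {r : ℕ} {𝒜 ℬ : Finset (Finset ℕ)} (hc : Cross r 𝒜 ℬ) (hs : Shifted 𝒜)
    {B : Finset ℕ} (hB : B ∈ ℬ) {A : Finset ℕ} (hA : A ∈ 𝒜) :
    ∃ i, i + r ≤ (A ∩ range i).card + (B ∩ range i).card := by
  induction hm : (A ∩ B).card using Nat.strong_induction_on generalizing A with
  | _ m ih =>
  by_contra hcon
  push Not at hcon
  have hr : r ≤ (A ∩ B).card := hc A hA B hB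
  have hr0 : 0 < r := by
    have := hcon 0
    simp at this
    exact this
  have hex : ∃ i, r ≤ (A ∩ B ∩ range i).card := by
    obtain ⟨i, hi⟩ := exists_nat_subset_range (A ∩ B)
    exact ⟨i, by rwa [inter_eq_left.2 hi]⟩
  classical
  set i0 := Nat.find hex with hi0
  have h1 : r ≤ (A ∩ B ∩ range i0).card := Nat.find_spec hex
  have h2 : ∀ l < i0, (A ∩ B ∩ range l).card < r := fun l hl => not_le.1 (Nat.find_min hex hl)
  have hpos : 0 < i0 := by
    rcases Nat.eq_zero_or_pos i0 with h | h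
    · rw [h] at h1; simp at h1; omega
    · exact h
  obtain ⟨j, hj⟩ : ∃ j, i0 = j + 1 := ⟨i0 - 1, by omega⟩
  have hjAB : j ∈ A ∩ B := by
    by_contra hn
    have : A ∩ B ∩ range (j + 1) = A ∩ B ∩ range j := by
      rw [range_add_one, inter_insert_of_notMem hn]
    have h3 := h2 j (by omega)
    rw [hj, this] at h1
    omega
  have hsplit : ∀ (S : Finset ℕ) (l : ℕ), (S ∩ range l).card + (B ∩ range l).card
      = ((S ∪ B) ∩ range l).card + (S ∩ B ∩ range l).card := by
    intro S l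
    rw [union_inter_distrib_right, ← card_union_add_card_inter]
    congr 2
    ext x; simp only [mem_inter]; tauto
  have h4 : ((A ∪ B) ∩ range (j + 1)).card < (range (j + 1)).card := by
    have := hcon (j + 1)
    rw [hsplit] at this
    rw [hj] at h1
    rw [card_range]
    omega
  obtain ⟨i, hi1, hi2⟩ := exists_mem_notMem_of_card_lt_card h4
  have hiA : i ∉ A := fun h => hi2 (mem_inter.2 ⟨mem_union_left _ h, hi1⟩)
  have hiB : i ∉ B := fun h => hi2 (mem_inter.2 ⟨mem_union_right _ h, hi1⟩)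
  have hjA : j ∈ A := (mem_inter.1 hjAB).1
  have hij : i < j := by
    have := mem_range.1 hi1
    have : i ≠ j := fun e => hiA (e ▸ hjA)
    omega
  have hA' := hs A hA i j hij hjA hiA
  have e1 : insert i (A.erase j) ∩ B = (A ∩ B).erase j := by
    rw [insert_inter_of_notMem hiB, erase_inter]
  have hlt : (insert i (A.erase j) ∩ B).card < m := by
    rw [e1, ← hm]; exact card_erase_lt_of_mem hjAB
  obtain ⟨l, hl⟩ := ih _ hlt hA' rfl
  rcases Nat.lt_or_ge l i0 with hl0 | hl0
  · rw [hsplit, e1] at hl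
    have h5 : ((insert i (A.erase j) ∪ B) ∩ range l).card ≤ l := by
      refine le_trans (card_le_card inter_subset_right) (by rw [card_range])
    have h6 : ((A ∩ B).erase j ∩ range l).card ≤ (A ∩ B ∩ range l).card :=
      card_le_card (inter_subset_inter_right (erase_subset _ _))
    have := h2 l hl0
    omega
  · have e2 : insert i (A.erase j) ∩ range l = insert i ((A ∩ range l).erase j) := by
      rw [insert_inter_of_mem (mem_range.2 (by omega)), erase_inter]
    rw [e2, card_insert_erase (mem_inter.2 ⟨hjA, mem_range.2 (by omega)⟩)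
      (fun h => hiA (mem_inter.1 h).1)] at hl
    have := hcon l
    omega

/-- The walk of B started at o reaches height v. -/
def Hits (o v : ℕ) (B : Finset ℕ) : Prop := ∃ m, v + m ≤ 2 * (B ∩ Ico o (o + m)).card

theorem ch_pascal (n b v : ℕ) :
    (if 1 ≤ b then ch n (b - 1) v else 0) + ch n b (v + 2) ≤ ch (n + 1) b (v + 1) := by
  unfold ch
  split_ifs with h1 h2 h3 h4 h4 h3 h4 h4 h3 h4 h4 <;> try omega
  · have e1 : b - (v + 1) = (b - (v + 2)) + 1 := by omega
    have e2 : b - 1 - v = (b - (v + 2)) + 1 := by omega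
    rw [e1, e2, Nat.choose_succ_succ']
    omega
  · have e1 : b - (v + 1) = 0 := by omega
    have e2 : b - 1 - v = 0 := by omega
    rw [e1, e2]; simp

open Classical in
theorem card_hits (n : ℕ) : ∀ (o b v : ℕ),
    ((powersetCard b (Ico o (o + n))).filter (Hits o v)).card ≤ ch n b v := by
  induction n with
  | zero =>
    intro o b v
    rcases Nat.eq_zero_or_pos v with rfl | hv
    · refine le_trans (card_filter_le _ _) ?_
      simp [ch]
    · rw [filter_false_of_mem]
      · simp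
      · intro B hB
        have : B = ∅ := by
          have := (mem_powersetCard.1 hB).1
          simpa using this
        rintro ⟨m, hm⟩
        rw [this] at hm
        simp at hm
        omega
  | succ n ih =>
    intro o b v
    rcases Nat.eq_zero_or_pos v with rfl | hv
    · refine le_trans (card_filter_le _ _) ?_
      simp [ch]
    obtain ⟨v, rfl⟩ : ∃ w, v = w + 1 := ⟨v - 1, by omega⟩
    refine le_trans ?_ (ch_pascal n b v)
    rw [← card_filter_add_card_filter_not (fun B => o ∈ B)]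
    have hI : ∀ m, Ico o (o + (m + 1)) = insert o (Ico (o + 1) (o + 1 + m)) := by
      intro m; ext x; simp only [mem_Ico, mem_insert]; omega
    have hoI : ∀ m, o ∉ Ico (o + 1) (o + 1 + m) := by
      intro m; simp
    refine add_le_add ?_ ?_
    · split_ifs with hb
      · refine le_trans (card_le_card_of_injOn (fun B => B.erase o) ?_ ?_) (ih (o + 1) (b - 1) v)
        · intro B hB
          simp only [coe_filter, mem_filter, mem_powersetCard, Set.mem_ofPred_eq] at hB ⊢
          obtain ⟨⟨⟨h1, h2⟩, m, hm⟩, h3⟩ := hB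
          refine ⟨⟨?_, by rw [card_erase_of_mem h3, h2]⟩, ?_⟩
          · rw [hI] at h1
            exact subset_insert_iff.1 h1
          · rcases m with _ | m
            · simp at hm
            · refine ⟨m, ?_⟩
              rw [hI, inter_insert_of_mem h3,
                card_insert_of_notMem (fun h => hoI m (mem_inter.1 h).2)] at hm
              have : B.erase o ∩ Ico (o + 1) (o + 1 + m) = B ∩ Ico (o + 1) (o + 1 + m) := by
                rw [erase_inter, erase_eq_of_notMem (fun h => hoI m (mem_inter.1 h).2)]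
              rw [this]
              omega
        · intro B hB B' hB' h
          have h1 : o ∈ B := (mem_filter.1 (mem_coe.1 hB)).2
          have h2 : o ∈ B' := (mem_filter.1 (mem_coe.1 hB')).2
          have h' : B.erase o = B'.erase o := h
          rw [← insert_erase h1, ← insert_erase h2, h']
      · rw [Nat.le_zero, card_eq_zero, filter_eq_empty_iff]
        intro B hB ho
        have h2 := (mem_powersetCard.1 (mem_filter.1 hB).1).2
        have := card_pos.2 ⟨o, ho⟩
        omega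
    · refine le_trans (card_le_card ?_) (ih (o + 1) b (v + 2))
      intro B hB
      simp only [mem_filter, mem_powersetCard] at hB ⊢
      obtain ⟨⟨⟨h1, h2⟩, m, hm⟩, h3⟩ := hB
      refine ⟨⟨?_, h2⟩, ?_⟩
      · rw [hI] at h1
        exact (subset_insert_iff_of_notMem h3).1 h1
      · rcases m with _ | m
        · simp at hm
        · refine ⟨m, ?_⟩
          rw [hI, inter_insert_of_notMem h3] at hm
          omega

theorem card_le_of_hits {n b v : ℕ} {ℬ : Finset (Finset ℕ)} (hB : Unif n b ℬ)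
    (h : ∀ B ∈ ℬ, Hits 0 v B) : ℬ.card ≤ ch n b v := by
  classical
  refine le_trans (card_le_card ?_) (card_hits n 0 b v)
  intro B hB'
  rw [mem_filter, mem_powersetCard, zero_add, ← range_eq_Ico]
  exact ⟨hB B hB', h B hB'⟩

theorem hits_of_card {n a r u : ℕ} {𝒜 ℬ : Finset (Finset ℕ)} (hA : Unif n a 𝒜)
    (hc : Cross r 𝒜 ℬ) (hs : Shifted 𝒜) (h : ch n a u < 𝒜.card) :
    ∀ B ∈ ℬ, Hits 0 (2 * r + 1 - u) B := by
  have : ∃ A ∈ 𝒜, ¬ Hits 0 u A := by
    by_contra hcon
    push Not at hcon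
    exact absurd (card_le_of_hits hA hcon) (not_le.2 h)
  obtain ⟨A, hA', hn⟩ := this
  intro B hB
  obtain ⟨i, hi⟩ := frankl_walk hc hs hB hA'
  unfold Hits at hn ⊢
  push Not at hn
  have := hn i
  rcases Nat.lt_or_ge (2 * r + 1) u with hu | hu
  · exact ⟨0, by omega⟩
  refine ⟨i, ?_⟩
  rw [zero_add, ← range_eq_Ico] at this ⊢
  have h2 : (A ∩ range i).card ≤ i := le_trans (card_le_card inter_subset_right) (by simp)
  have h3 : (B ∩ range i).card ≤ i := le_trans (card_le_card inter_subset_right) (by simp)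
  omega

/-- The basic trade-off for cross-intersecting families. -/
theorem tradeoff {n a b r u : ℕ} {𝒜 ℬ : Finset (Finset ℕ)} (hA : Unif n a 𝒜) (hB : Unif n b ℬ)
    (hc : Cross r 𝒜 ℬ) (h : ch n a u < 𝒜.card) : ℬ.card ≤ ch n b (2 * r + 1 - u) := by
  obtain ⟨𝒜', ℬ', g1, g2, g3, g4, g5, g6, -⟩ := exists_shifted 𝒜 ℬ hA hB hc
  rw [← g5]
  exact card_le_of_hits g2 (hits_of_card g1 g3 g6 (by rwa [g4]))

theorem card_supersets_le {n a : ℕ} {𝒜 : Finset (Finset ℕ)} (hA : Unif n a 𝒜) (S : Finset ℕ) :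
    (𝒜.filter fun A => S ⊆ A).card ≤ ch n a S.card := by
  unfold ch
  split_ifs with h
  · have e0 : n.choose (a - S.card) = (powersetCard (a - S.card) (range n)).card := by
      rw [card_powersetCard, card_range]
    rw [e0]
    refine card_le_card_of_injOn (fun A => A \ S) ?_ ?_
    · intro A hA'
      simp only [coe_filter, Set.mem_ofPred_eq] at hA'
      simp only [mem_coe, mem_powersetCard]
      exact ⟨sdiff_subset.trans (hA A hA'.1).1, by
        rw [card_sdiff_of_subset hA'.2, (hA A hA'.1).2]⟩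
    · intro A hA1 B hB1 e
      have h1 : S ⊆ A := (mem_filter.1 (mem_coe.1 hA1)).2
      have h2 : S ⊆ B := (mem_filter.1 (mem_coe.1 hB1)).2
      have e' : A \ S = B \ S := e
      rw [← sdiff_union_of_subset h1, ← sdiff_union_of_subset h2, e']
  · rw [Nat.le_zero, card_eq_zero, filter_eq_empty_iff]
    intro A hA' hS
    have := card_le_card hS
    rw [(hA A hA').2] at this
    omega

theorem hits_of_dense {n a r o : ℕ} {𝒜 ℬ : Finset (Finset ℕ)} (hA : Unif n a 𝒜)
    (hc : Cross r 𝒜 ℬ) (hs : Shifted 𝒜) (hr : 1 ≤ r)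
    (h : o * ch n a 1 + ch n a 2 < 𝒜.card) :
    ∀ B ∈ ℬ, Hits 0 (2 * r + o - 1) B := by
  classical
  have : ∃ A ∈ 𝒜, (∀ x < o, x ∉ A) ∧ ¬ Hits o 2 A := by
    by_contra hcon
    push Not at hcon
    have hsub : 𝒜 ⊆ ((range o).biUnion fun x => 𝒜.filter fun A => {x} ⊆ A)
        ∪ (powersetCard a (Ico o (o + n))).filter (Hits o 2) := by
      intro A hA'
      by_cases h1 : ∀ x < o, x ∉ A
      · refine mem_union_right _ (mem_filter.2 ⟨mem_powersetCard.2 ⟨?_, (hA A hA').2⟩,
          hcon A hA' h1⟩)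
        intro x hx
        have h2 := mem_range.1 ((hA A hA').1 hx)
        have h3 : ¬ x < o := fun h => h1 x h hx
        exact mem_Ico.2 ⟨by omega, by omega⟩
      · push Not at h1
        obtain ⟨x, hx1, hx2⟩ := h1
        exact mem_union_left _ (mem_biUnion.2 ⟨x, mem_range.2 hx1,
          mem_filter.2 ⟨hA', singleton_subset_iff.2 hx2⟩⟩)
    have h1 := le_trans (card_le_card hsub) (card_union_le _ _)
    have h2 := card_hits n o a 2
    have h3 : ((range o).biUnion fun x => 𝒜.filter fun A => {x} ⊆ A).card ≤ o * ch n a 1 := by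
      refine le_trans card_biUnion_le ?_
      refine le_trans (sum_le_sum fun x _ => card_supersets_le hA {x}) ?_
      simp
    omega
  obtain ⟨A, hA', h0, hn⟩ := this
  intro B hB
  obtain ⟨i, hi⟩ := frankl_walk hc hs hB hA'
  have h3 : (B ∩ range i).card ≤ i := le_trans (card_le_card inter_subset_right) (by simp)
  unfold Hits at hn ⊢
  push Not at hn
  have e : A ∩ range i = A ∩ Ico o (o + (i - o)) := by
    ext x
    simp only [mem_inter, mem_range, mem_Ico]
    constructor
    · rintro ⟨h1, h2⟩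
      have : ¬ x < o := fun h => h0 x h h1
      exact ⟨h1, by omega, by omega⟩
    · rintro ⟨h1, h2, h4⟩
      exact ⟨h1, by omega⟩
  have h4 := hn (i - o)
  rw [← e] at h4
  have h5 : (A ∩ range i).card ≤ i - o := by
    rw [e]; exact le_trans (card_le_card inter_subset_right) (by simp)
  refine ⟨i, ?_⟩
  rw [zero_add, ← range_eq_Ico]
  omega

/-- A family cross-intersecting with a dense family is small. -/
theorem small_of_dense {n a b r o : ℕ} {𝒜 ℬ : Finset (Finset ℕ)} (hA : Unif n a 𝒜)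
    (hB : Unif n b ℬ) (hc : Cross r 𝒜 ℬ) (hr : 1 ≤ r)
    (h : o * ch n a 1 + ch n a 2 < 𝒜.card) : ℬ.card ≤ ch n b (2 * r + o - 1) := by
  obtain ⟨𝒜', ℬ', g1, g2, g3, g4, g5, g6, -⟩ := exists_shifted 𝒜 ℬ hA hB hc
  rw [← g5]
  exact card_le_of_hits g2 (hits_of_dense g1 g3 g6 hr (by rwa [g4]))

end Pool.Agent.MP_217c9a_co

end MrgPart1

-- ======== part 2: formerly Pool.Agent.MP_217c9a_co.Core
section MrgPart2

/-
Large cross-intersecting pairs are close to a common star.
-/

set_option autoImplicit false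

open Finset

namespace Pool.Agent.MP_217c9a_co

/-- The link of a vertex. -/
def link (𝒜 : Finset (Finset ℕ)) (v : ℕ) : Finset (Finset ℕ) :=
  (𝒜.filter fun A => v ∈ A).image fun A => A.erase v

/-- The members avoiding a vertex. -/
def del (𝒜 : Finset (Finset ℕ)) (v : ℕ) : Finset (Finset ℕ) := 𝒜.filter fun A => v ∉ A

theorem mem_link {𝒜 : Finset (Finset ℕ)} {v : ℕ} {S : Finset ℕ} :
    S ∈ link 𝒜 v ↔ v ∉ S ∧ insert v S ∈ 𝒜 := by
  unfold link
  simp only [mem_image, mem_filter]
  constructor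
  · rintro ⟨A, ⟨h1, h2⟩, rfl⟩
    exact ⟨notMem_erase _ _, by rwa [insert_erase h2]⟩
  · rintro ⟨h1, h2⟩
    exact ⟨insert v S, ⟨h2, mem_insert_self _ _⟩, erase_insert h1⟩

theorem mem_del {𝒜 : Finset (Finset ℕ)} {v : ℕ} {S : Finset ℕ} :
    S ∈ del 𝒜 v ↔ S ∈ 𝒜 ∧ v ∉ S := mem_filter

theorem card_link (𝒜 : Finset (Finset ℕ)) (v : ℕ) : (link 𝒜 v).card = dg 𝒜 v := by
  unfold link dg
  refine card_image_of_injOn ?_
  intro A hA B hB h
  have h1 : v ∈ A := (mem_filter.1 (mem_coe.1 hA)).2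
  have h2 : v ∈ B := (mem_filter.1 (mem_coe.1 hB)).2
  have h' : A.erase v = B.erase v := h
  rw [← insert_erase h1, ← insert_erase h2, h']

theorem dg_add_del (𝒜 : Finset (Finset ℕ)) (v : ℕ) : dg 𝒜 v + (del 𝒜 v).card = 𝒜.card :=
  card_filter_add_card_filter_not _

theorem Unif.link {n a : ℕ} {𝒜 : Finset (Finset ℕ)} (h : Unif n a 𝒜) (v : ℕ) :
    Unif n (a - 1) (link 𝒜 v) := by
  intro S hS
  obtain ⟨h1, h2⟩ := mem_link.1 hS
  obtain ⟨h3, h4⟩ := h _ h2
  rw [card_insert_of_notMem h1] at h4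
  exact ⟨(subset_insert _ _).trans h3, by omega⟩

theorem Unif.del {n a : ℕ} {𝒜 : Finset (Finset ℕ)} (h : Unif n a 𝒜) (v : ℕ) :
    Unif n a (del 𝒜 v) := fun S hS => h S (mem_del.1 hS).1

theorem Unif.mono {n a : ℕ} {𝒜 ℬ : Finset (Finset ℕ)} (h : Unif n a 𝒜) (hs : ℬ ⊆ 𝒜) :
    Unif n a ℬ := fun S hS => h S (hs hS)

theorem Cross.link_del {r : ℕ} {𝒜 ℬ : Finset (Finset ℕ)} (h : Cross r 𝒜 ℬ) (v : ℕ) :
    Cross r (link 𝒜 v) (del ℬ v) := by
  intro S hS B hB
  have := h _ (mem_link.1 hS).2 B (mem_del.1 hB).1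
  rwa [insert_inter_of_notMem (mem_del.1 hB).2] at this

theorem Cross.link_link {r : ℕ} {𝒜 ℬ : Finset (Finset ℕ)} (h : Cross (r + 1) 𝒜 ℬ) (v : ℕ) :
    Cross r (link 𝒜 v) (link ℬ v) := by
  intro S hS T hT
  have := h _ (mem_link.1 hS).2 _ (mem_link.1 hT).2
  rw [← insert_inter_distrib] at this
  have h2 := card_insert_le v (S ∩ T)
  omega

theorem ch_succ_le {n a j : ℕ} (h : 2 * (a - j) ≤ n) : ch n a (j + 1) ≤ ch n a j := by
  unfold ch
  split_ifs with h1 h2 h2 <;> try omega
  have e : a - j = (a - (j + 1)) + 1 := by omega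
  rw [e]
  exact Nat.choose_le_succ_of_lt_half_left (by omega)

theorem dichotomy {n r e : ℕ} {𝒜 ℬ : Finset (Finset ℕ)} (hA : Unif n (r + e) 𝒜)
    (hB : Unif n (r + e) ℬ) (hc : Cross r 𝒜 ℬ) (v : ℕ) (h : ch n e 1 < dg 𝒜 v) :
    (del ℬ v).card ≤ ch n e 1 := by
  have hpos : 1 ≤ r + e := by
    have : 0 < dg 𝒜 v := by omega
    obtain ⟨A, hA'⟩ := card_pos.1 this
    obtain ⟨h1, h2⟩ := mem_filter.1 hA'
    have := card_pos.2 ⟨v, h2⟩
    rw [(hA A h1).2] at this
    omega
  have h1 := tradeoff (u := r) (hA.link v) (hB.del v) (hc.link_del v) (by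
    rw [card_link]
    refine lt_of_le_of_lt (le_of_eq ?_) h
    unfold ch
    split_ifs with h1 h2 h2 <;> try omega
    congr 1; omega)
  refine le_trans h1 (le_of_eq ?_)
  unfold ch
  split_ifs with h1 h2 h2 <;> try omega
  congr 1; omega

theorem continuity {n r e : ℕ} {𝒜 ℬ : Finset (Finset ℕ)} (hA : Unif n (r + e) 𝒜)
    (hB : Unif n (r + e) ℬ) (hc : Cross r 𝒜 ℬ) (hr : 1 ≤ r) (hn : 2 * e ≤ n)
    (h : ∀ v, dg 𝒜 v ≤ ch n e 1 ∧ dg ℬ v ≤ ch n e 1) :
    𝒜.card ≤ 3 * ch n e 1 ∨ ℬ.card ≤ 3 * ch n e 1 := by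
  obtain ⟨𝒜', ℬ', g1, g2, g3, g4, g5, g6, g7⟩ := exists_shifted_or
    (fun 𝒜 ℬ => ∀ v, dg 𝒜 v ≤ ch n e 1 ∧ dg ℬ v ≤ ch n e 1) 𝒜 ℬ hA hB hc h
  rw [← g4, ← g5]
  rcases g7 with ⟨s1, -⟩ | ⟨i, j, hij, hq⟩
  · have hc' : Cross (r + 1) (del 𝒜' 0) (del ℬ' 0) := by
      intro A hA' B hB'
      obtain ⟨a1, a2⟩ := mem_del.1 hA'
      obtain ⟨b1, b2⟩ := mem_del.1 hB'
      have h1 := g3 A a1 B b1
      obtain ⟨j, hj⟩ := card_pos.1 (show 0 < (A ∩ B).card by omega)
      have hjA := (mem_inter.1 hj).1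
      have hj0 : 0 < j := Nat.pos_of_ne_zero fun e => a2 (e ▸ hjA)
      have h2 := g3 _ (s1 A a1 0 j hj0 hjA a2) B b1
      rw [insert_inter_of_notMem b2, erase_inter, card_erase_of_mem hj] at h2
      omega
    have e1 : ch n (r + e) (r + 1) = ch n e 1 := by
      unfold ch
      split_ifs with h1 h2 h2 <;> try omega
      congr 1; omega
    by_cases h1 : ch n (r + e) (r + 1) < (del 𝒜' 0).card
    · right
      have h2 := tradeoff (g1.del 0) (g2.del 0) hc' h1
      have e2 : 2 * (r + 1) + 1 - (r + 1) = r + 1 + 1 := by omega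
      rw [e2] at h2
      have h3 := ch_succ_le (n := n) (a := r + e) (j := r + 1) (by omega)
      have := dg_add_del ℬ' 0
      have := (g6 0).2
      omega
    · left
      have := dg_add_del 𝒜' 0
      have := (g6 0).1
      omega
  · push Not at hq
    obtain ⟨v, hv⟩ := hq
    by_cases h1 : ch n e 1 < dg (shiftFam i j 𝒜') v
    · right
      have h2 := dichotomy (g1.shiftFam hij) (g2.shiftFam hij) (g3.shiftFam i j) v h1
      have h3 := dg_add_del (shiftFam i j ℬ') v
      have h4 := dg_shiftFam_le ℬ' i j v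
      rw [card_shiftFam] at h3
      have := (g6 v).2
      have := (g6 j).2
      omega
    · left
      have h2 := dichotomy (g2.shiftFam hij) (g1.shiftFam hij) (g3.shiftFam i j).symm v
        (hv (not_lt.1 h1))
      have h3 := dg_add_del (shiftFam i j 𝒜') v
      have h4 := dg_shiftFam_le 𝒜' i j v
      rw [card_shiftFam] at h3
      have := (g6 v).1
      have := (g6 j).1
      omega

theorem card_link_sup (𝒜 : Finset (Finset ℕ)) (v : ℕ) (T : Finset ℕ) :
    ((link 𝒜 v).filter fun A => T ⊆ A).card ≤ (𝒜.filter fun A => insert v T ⊆ A).card := by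
  refine card_le_card_of_injOn (fun A => insert v A) ?_ ?_
  · intro S hS
    obtain ⟨h1, h2⟩ := mem_filter.1 (mem_coe.1 hS)
    exact mem_coe.2 (mem_filter.2 ⟨(mem_link.1 h1).2, insert_subset_insert _ h2⟩)
  · intro S hS S' hS' e
    have h1 := (mem_link.1 (mem_filter.1 (mem_coe.1 hS)).1).1
    have h2 := (mem_link.1 (mem_filter.1 (mem_coe.1 hS')).1).1
    have e' : insert v S = insert v S' := e
    rw [← erase_insert h1, e', erase_insert h2]

theorem exists_core {n e : ℕ} (hn : 2 * e ≤ n) (r : ℕ) : ∀ {𝒜 ℬ : Finset (Finset ℕ)},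
    Unif n (r + e) 𝒜 → Unif n (r + e) ℬ → Cross r 𝒜 ℬ →
    (r + 3) * ch n e 1 < 𝒜.card → (r + 3) * ch n e 1 < ℬ.card →
    ∃ T : Finset ℕ, T.card = r ∧ 𝒜.card ≤ (𝒜.filter fun A => T ⊆ A).card + r * ch n e 1 ∧
      ℬ.card ≤ (ℬ.filter fun A => T ⊆ A).card + r * ch n e 1 := by
  induction r with
  | zero =>
    intro 𝒜 ℬ _ _ _ _ _
    exact ⟨∅, rfl, by simp, by simp⟩
  | succ r ih =>
    intro 𝒜 ℬ hA hB hc h1 h2
    set M := ch n e 1 with hM
    have e1 : (r + 1 + 3) * M = (r + 3) * M + M := by ring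
    have e2 : (r + 3) * M = r * M + 3 * M := by ring
    have hv : ∃ v, (del 𝒜 v).card ≤ M ∧ (del ℬ v).card ≤ M := by
      have : ∃ v, M < dg 𝒜 v ∨ M < dg ℬ v := by
        by_contra hcon
        push Not at hcon
        rcases continuity hA hB hc (by omega) hn hcon with h | h <;> omega
      obtain ⟨v, hv | hv⟩ := this
      · have a1 := dichotomy hA hB hc v hv
        have a2 := dg_add_del ℬ v
        exact ⟨v, dichotomy hB hA hc.symm v (by omega), a1⟩
      · have a1 := dichotomy hB hA hc.symm v hv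
        have a2 := dg_add_del 𝒜 v
        exact ⟨v, a1, dichotomy hA hB hc v (by omega)⟩
    obtain ⟨v, hv1, hv2⟩ := hv
    have a1 := dg_add_del 𝒜 v
    have a2 := dg_add_del ℬ v
    have e3 : r + 1 + e - 1 = r + e := by omega
    obtain ⟨T, hT, b1, b2⟩ := ih (e3 ▸ hA.link v) (e3 ▸ hB.link v) (hc.link_link v)
      (by rw [card_link]; omega) (by rw [card_link]; omega)
    rw [card_link] at b1 b2
    have hvT : v ∉ T := by
      have : 0 < ((link 𝒜 v).filter fun A => T ⊆ A).card := by omega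
      obtain ⟨S, hS⟩ := card_pos.1 this
      obtain ⟨c1, c2⟩ := mem_filter.1 hS
      exact fun h => (mem_link.1 c1).1 (c2 h)
    have c1 := card_link_sup 𝒜 v T
    have c2 := card_link_sup ℬ v T
    have e4 : (r + 1) * M = r * M + M := by ring
    exact ⟨insert v T, by rw [card_insert_of_notMem hvT, hT], by omega, by omega⟩

end Pool.Agent.MP_217c9a_co

end MrgPart2

-- ======== part 3: formerly Pool.Agent.MP_217c9a_co.Num
section MrgPart3

/-
Estimates for binomial coefficients.
-/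

set_option autoImplicit false

open Finset

namespace Pool.Agent.MP_217c9a_co

theorem ch_zero (m b : ℕ) : ch m b 0 = m.choose b := by simp [ch]

theorem choose_le_sub_add (m b a : ℕ) : m.choose b ≤ (m - a).choose b + a * ch m b 1 := by
  induction a with
  | zero => simp
  | succ a ih =>
    have : (m - a).choose b ≤ (m - (a + 1)).choose b + ch m b 1 := by
      rcases Nat.eq_zero_or_pos (m - a) with h | h
      · have : m - (a + 1) = 0 := by omega
        rw [h, this]; omega
      · obtain ⟨m', hm'⟩ : ∃ m', m - a = m' + 1 := ⟨m - a - 1, by omega⟩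
        have e : m - (a + 1) = m' := by omega
        rw [hm', e]
        rcases b with _ | b
        · simp
        · rw [Nat.choose_succ_succ']
          have : m'.choose b ≤ m.choose b := Nat.choose_le_choose b (by omega)
          unfold ch
          rw [if_pos (by omega)]
          simp only [add_tsub_cancel_right]
          omega
    rw [add_mul]
    omega

theorem ch_ratio (m b j : ℕ) : ch m b (j + 1) * (m - b) ≤ ch m b j * b := by
  unfold ch
  split_ifs with h1 h2 h2
  · have e : b - j = (b - (j + 1)) + 1 := by omega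
    rw [e]
    have := Nat.choose_succ_right_eq m (b - (j + 1))
    calc m.choose (b - (j + 1)) * (m - b) ≤ m.choose (b - (j + 1)) * (m - (b - (j + 1))) :=
          Nat.mul_le_mul_left _ (by omega)
      _ = m.choose (b - (j + 1) + 1) * (b - (j + 1) + 1) := this.symm
      _ ≤ _ := Nat.mul_le_mul_left _ (by omega)
  · omega
  · simp
  · simp

theorem ch_step {m b L : ℕ} (h : L * b + b ≤ m) (j : ℕ) : L * ch m b (j + 1) ≤ ch m b j := by
  rcases Nat.eq_zero_or_pos b with rfl | hb
  · simp [ch]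
  have h1 := ch_ratio m b j
  have h2 : L * ch m b (j + 1) * b ≤ ch m b j * b := by
    calc L * ch m b (j + 1) * b = ch m b (j + 1) * (L * b) := by ring
      _ ≤ ch m b (j + 1) * (m - b) := Nat.mul_le_mul_left _ (by omega)
      _ ≤ _ := h1
  exact Nat.le_of_mul_le_mul_right h2 hb

theorem ch_iter {m b L : ℕ} (h : L * b + b ≤ m) (j : ℕ) : L ^ j * ch m b j ≤ m.choose b := by
  induction j with
  | zero => simp [ch]
  | succ j ih =>
    calc L ^ (j + 1) * ch m b (j + 1) = L ^ j * (L * ch m b (j + 1)) := by ring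
      _ ≤ L ^ j * ch m b j := Nat.mul_le_mul_left _ (ch_step h j)
      _ ≤ _ := ih

theorem choose_iter {m b L j : ℕ} (h : L * b + b ≤ m) (hj : j ≤ b) :
    L ^ (b - j) * m.choose j ≤ m.choose b := by
  have := ch_iter h (b - j)
  unfold ch at this
  rwa [if_pos (by omega), show b - (b - j) = j by omega] at this

theorem choose_le_pow_mul {n m j Λ : ℕ} (h : n ≤ Λ * (m + 1 - j)) :
    n.choose j ≤ Λ ^ j * m.choose j := by
  have h1 : j.factorial * n.choose j ≤ j.factorial * (Λ ^ j * m.choose j) := by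
    calc j.factorial * n.choose j = n.descFactorial j :=
          (Nat.descFactorial_eq_factorial_mul_choose n j).symm
      _ ≤ n ^ j := Nat.descFactorial_le_pow n j
      _ ≤ (Λ * (m + 1 - j)) ^ j := Nat.pow_le_pow_left h j
      _ = Λ ^ j * (m + 1 - j) ^ j := mul_pow _ _ _
      _ ≤ Λ ^ j * m.descFactorial j := Nat.mul_le_mul_left _ (Nat.pow_sub_le_descFactorial m j)
      _ = _ := by rw [Nat.descFactorial_eq_factorial_mul_choose]; ring
  exact Nat.le_of_mul_le_mul_left h1 (Nat.factorial_pos j)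

theorem choose_sq_le (n j : ℕ) : n.choose j * n.choose j ≤ (n + n).choose (j + j) := by
  rw [Nat.add_choose_eq]
  exact single_le_sum (f := fun ij : ℕ × ℕ => n.choose ij.1 * n.choose ij.2)
    (fun _ _ => Nat.zero_le _) (a := (j, j)) (by simp)

theorem card_small_subsets {n μ : ℕ} (h : 2 * μ ≤ n) :
    ((powerset (range n)).filter fun S => S.card ≤ μ).card ≤ (μ + 1) * n.choose μ := by
  have hsub : ((powerset (range n)).filter fun S => S.card ≤ μ)
      ⊆ (range (μ + 1)).biUnion fun i => powersetCard i (range n) := by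
    intro S hS
    obtain ⟨h1, h2⟩ := mem_filter.1 hS
    exact mem_biUnion.2 ⟨S.card, mem_range.2 (by omega),
      mem_powersetCard.2 ⟨mem_powerset.1 h1, rfl⟩⟩
  refine le_trans (card_le_card hsub) (le_trans card_biUnion_le ?_)
  have : ∀ i ∈ range (μ + 1), (powersetCard i (range n)).card ≤ n.choose μ := by
    intro i hi
    rw [card_powersetCard, card_range]
    have := choose_iter (m := n) (b := μ) (L := 1) (j := i) (by omega)
      (by have := mem_range.1 hi; omega)
    simpa using this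
  refine le_trans (sum_le_sum this) ?_
  simp

theorem geo_sum {t K : ℕ} (a : ℕ → ℕ) (h : ∀ i < t, 2000 ^ (i + 1) * a i ≤ K) :
    1000 * ∑ i ∈ range t, a i ≤ K := by
  have h1 : ∀ i ∈ range t, (a i : ℝ) ≤ K / 2000 * (1 / 2) ^ i := by
    intro i hi
    have h2 : ((2000 : ℝ) ^ (i + 1)) * a i ≤ K := by exact_mod_cast h i (mem_range.1 hi)
    have h3 : (2 : ℝ) ^ i ≤ 2000 ^ i := pow_le_pow_left₀ (by norm_num) (by norm_num) i
    have h4 : (0 : ℝ) ≤ a i := by positivity
    have h5 : (2000 : ℝ) * 2 ^ i * a i ≤ K := by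
      refine le_trans ?_ h2
      rw [pow_succ]
      nlinarith
    rw [one_div, inv_pow, ← div_eq_mul_inv, div_div, le_div_iff₀ (by positivity)]
    linarith
  have h2 := sum_le_sum h1
  rw [← mul_sum] at h2
  have h3 := sum_geometric_two_le t
  have h4 : (0 : ℝ) ≤ K := by positivity
  have : (1000 : ℝ) * ∑ i ∈ range t, (a i : ℝ) ≤ K := by nlinarith
  exact_mod_cast this

theorem conc_bound {n m t b j : ℕ} (hb : 4000 * t * b + b ≤ m) (hn : n ≤ 2 * m) (ht : 1 ≤ t)
    (hj : 2 * j + 2 ≤ b) :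
    4 * (t * (2 ^ (b + 3) * ((j + 1) * n.choose j))) ≤ m.choose b := by
  have h0 : 4000 * b ≤ 4000 * t * b := by nlinarith
  have h1 := choose_iter hb (show j ≤ b by omega)
  have h2 : n.choose j ≤ 4 ^ j * m.choose j := choose_le_pow_mul (by omega)
  obtain ⟨d, hd⟩ : ∃ d, b = j + d := ⟨b - j, by omega⟩
  have e : b - j = d := by omega
  rw [e] at h1
  have hd1 : j + 1 ≤ d := by omega
  have a1 : 2 ^ (b + 3) ≤ 8 * 4 ^ d := by
    calc 2 ^ (b + 3) ≤ 2 ^ (2 * d + 3) := Nat.pow_le_pow_right (by norm_num) (by omega)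
      _ = 8 * 4 ^ d := by rw [pow_add, pow_mul]; ring
  have a2 : j + 1 ≤ 2 ^ d := le_trans hd1 Nat.lt_two_pow_self.le
  have a3 : 4 ^ j ≤ 4 ^ d := Nat.pow_le_pow_right (by norm_num) (by omega)
  have a4 : 32 ≤ 32 ^ d := Nat.le_self_pow (by omega) _
  have a5 : t ≤ t ^ d := Nat.le_self_pow (by omega) _
  have a6 : 4 * (t * (2 ^ (b + 3) * ((j + 1) * 4 ^ j))) ≤ (4000 * t) ^ d := by
    calc 4 * (t * (2 ^ (b + 3) * ((j + 1) * 4 ^ j)))
        ≤ 4 * (t ^ d * (8 * 4 ^ d * (2 ^ d * 4 ^ d))) := by gcongr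
      _ = 32 * (t ^ d * (4 ^ d * (2 ^ d * 4 ^ d))) := by ring
      _ ≤ 32 ^ d * (t ^ d * (4 ^ d * (2 ^ d * 4 ^ d))) := by gcongr
      _ = (1024 * t) ^ d := by rw [← mul_pow, ← mul_pow, ← mul_pow, ← mul_pow]; congr 1; ring
      _ ≤ _ := Nat.pow_le_pow_left (by omega) d
  calc 4 * (t * (2 ^ (b + 3) * ((j + 1) * n.choose j)))
      ≤ 4 * (t * (2 ^ (b + 3) * ((j + 1) * (4 ^ j * m.choose j)))) := by gcongr
    _ = 4 * (t * (2 ^ (b + 3) * ((j + 1) * 4 ^ j))) * m.choose j := by ring
    _ ≤ (4000 * t) ^ d * m.choose j := Nat.mul_le_mul_right _ a6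
    _ ≤ _ := h1

theorem king_bound {n m b j : ℕ} (hb : 4000 * b + b ≤ m) (hn : n ≤ 2 * m)
    (hj : 4 * j + 1 ≤ b) :
    2 * (((j + 1) * n.choose j) * ((j + 1) * n.choose j)) ≤ m.choose b := by
  have h1 := choose_iter hb (show j + j ≤ b by omega)
  have h2 : (n + n).choose (j + j) ≤ 8 ^ (j + j) * m.choose (j + j) :=
    choose_le_pow_mul (by omega)
  have h3 := choose_sq_le n j
  obtain ⟨d, hd⟩ : ∃ d, b = j + j + d := ⟨b - (j + j), by omega⟩
  have e : b - (j + j) = d := by omega
  rw [e] at h1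
  have a1 : j + 1 ≤ 2 ^ d := le_trans (by omega) (Nat.lt_two_pow_self (n := d)).le
  have a3 : 8 ^ (j + j) ≤ 8 ^ d := Nat.pow_le_pow_right (by norm_num) (by omega)
  have a4 : 2 ≤ 2 ^ d := Nat.le_self_pow (by omega) _
  have a6 : 2 * ((j + 1) * (j + 1) * 8 ^ (j + j)) ≤ 4000 ^ d := by
    calc 2 * ((j + 1) * (j + 1) * 8 ^ (j + j)) ≤ 2 ^ d * (2 ^ d * 2 ^ d * 8 ^ d) := by gcongr
      _ = 64 ^ d := by rw [← mul_pow, ← mul_pow, ← mul_pow]; norm_num
      _ ≤ _ := Nat.pow_le_pow_left (by omega) d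
  calc 2 * (((j + 1) * n.choose j) * ((j + 1) * n.choose j))
      = 2 * ((j + 1) * (j + 1) * (n.choose j * n.choose j)) := by ring
    _ ≤ 2 * ((j + 1) * (j + 1) * (8 ^ (j + j) * m.choose (j + j))) :=
        Nat.mul_le_mul_left _ (Nat.mul_le_mul_left _ (le_trans h3 h2))
    _ = 2 * ((j + 1) * (j + 1) * 8 ^ (j + j)) * m.choose (j + j) := by ring
    _ ≤ 4000 ^ d * m.choose (j + j) := Nat.mul_le_mul_right _ a6
    _ ≤ _ := h1

end Pool.Agent.MP_217c9a_co

end MrgPart3

-- ======== part 4: formerly Pool.Agent.MP_217c9a_co.Dense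
section MrgPart4

/-
Dense (t+1)-sets meet almost all members in t points; the concentrated case.
-/

set_option autoImplicit false

open Finset

namespace Pool.Agent.MP_217c9a_co

theorem card_image_sdiff_of_inter {F : Finset (Finset ℕ)} {D P : Finset ℕ}
    (h : ∀ G ∈ F, G ∩ D = P) : (F.image fun G => G \ D).card = F.card := by
  refine card_image_of_injOn ?_
  intro A hA B hB e
  have e' : A \ D = B \ D := e
  rw [← sdiff_union_inter A D, ← sdiff_union_inter B D, e', h A (mem_coe.1 hA), h B (mem_coe.1 hB)]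

theorem card_inter_split (A B D : Finset ℕ) :
    (A ∩ B).card = ((A \ D) ∩ (B \ D)).card + (A ∩ B ∩ D).card := by
  rw [← card_sdiff_add_card_inter (A ∩ B) D]
  congr 2
  ext x; simp only [mem_sdiff, mem_inter]; tauto

theorem dense_exc {n t b : ℕ} {F : Finset (Finset ℕ)} (hU : Unif n (t + (b + 1)) F)
    (hC : Cross t F F) (ht : 1 ≤ t) (hn : 4000 * t * b + b ≤ n) {D : Finset ℕ}
    (hD : D.card = t + 1) (hd : 4 * ch n b 1 < (F.filter fun G => D ⊆ G).card) :
    1000 * (F.filter fun G => (G ∩ D).card < t).card ≤ n.choose b := by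
  set A := (F.filter fun G => D ⊆ G).image fun G => G \ D with hA
  have hAc : A.card = (F.filter fun G => D ⊆ G).card :=
    card_image_sdiff_of_inter (P := D) fun G hG => inter_eq_right.2 (mem_filter.1 hG).2
  have hAU : Unif n b A := by
    intro S hS
    obtain ⟨G, hG, rfl⟩ := mem_image.1 hS
    obtain ⟨g1, g2⟩ := mem_filter.1 hG
    refine ⟨sdiff_subset.trans (hU G g1).1, ?_⟩
    rw [card_sdiff_of_subset g2, (hU G g1).2, hD]; omega
  have h12 : ch n b 2 ≤ ch n b 1 := by
    have h0 : 1 * b + b ≤ n := by nlinarith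
    have : 1 * ch n b 2 ≤ ch n b 1 := ch_step h0 1
    omega
  have hfib : ∀ i < t, ∀ P ∈ powersetCard (t - 1 - i) D,
      (F.filter fun G => G ∩ D = P).card ≤ ch n b (i + 2) := by
    intro i hi P hP
    obtain ⟨p1, p2⟩ := mem_powersetCard.1 hP
    rw [← card_image_sdiff_of_inter (P := P) fun G hG => (mem_filter.1 hG).2]
    have hB : Unif n (b + i + 2) ((F.filter fun G => G ∩ D = P).image fun G => G \ D) := by
      intro S hS
      obtain ⟨G, hG, rfl⟩ := mem_image.1 hS
      obtain ⟨g1, g2⟩ := mem_filter.1 hG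
      refine ⟨sdiff_subset.trans (hU G g1).1, ?_⟩
      have := card_sdiff_add_card_inter G D
      rw [g2, p2, (hU G g1).2] at this
      omega
    have hc : Cross (i + 1) A ((F.filter fun G => G ∩ D = P).image fun G => G \ D) := by
      intro S hS S' hS'
      obtain ⟨G, hG, rfl⟩ := mem_image.1 hS
      obtain ⟨G', hG', rfl⟩ := mem_image.1 hS'
      obtain ⟨g1, g2⟩ := mem_filter.1 hG
      obtain ⟨g3, g4⟩ := mem_filter.1 hG'
      have h1 := hC G g1 G' g3
      rw [card_inter_split G G' D, inter_assoc, g4] at h1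
      have h2 : (G ∩ P).card ≤ P.card := card_le_card inter_subset_right
      omega
    refine le_trans (small_of_dense (o := 3) hAU hB hc (by omega) (by omega)) (le_of_eq ?_)
    unfold ch
    split_ifs with h1 h2 h2 <;> try omega
    congr 1; omega
  have hsub : (F.filter fun G => (G ∩ D).card < t) ⊆ (range t).biUnion fun i =>
      (powersetCard (t - 1 - i) D).biUnion fun P => F.filter fun G => G ∩ D = P := by
    intro G hG
    obtain ⟨g1, g2⟩ := mem_filter.1 hG
    refine mem_biUnion.2 ⟨t - 1 - (G ∩ D).card, mem_range.2 (by omega), mem_biUnion.2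
      ⟨G ∩ D, mem_powersetCard.2 ⟨inter_subset_right, by omega⟩, mem_filter.2 ⟨g1, rfl⟩⟩⟩
  have h1 : (F.filter fun G => (G ∩ D).card < t).card
      ≤ ∑ i ∈ range t, (t + 1).choose (i + 2) * ch n b (i + 2) := by
    refine le_trans (card_le_card hsub) (le_trans card_biUnion_le (sum_le_sum fun i hi => ?_))
    have hi' := mem_range.1 hi
    refine le_trans card_biUnion_le (le_trans (sum_le_sum (hfib i hi')) ?_)
    rw [sum_const, card_powersetCard, hD, smul_eq_mul,
      Nat.choose_symm_of_eq_add (show t + 1 = (t - 1 - i) + (i + 2) by omega)]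
  refine le_trans (Nat.mul_le_mul_left _ h1) (geo_sum _ fun i _ => ?_)
  have h2 := ch_iter hn (i + 2)
  have h3 : (t + 1).choose (i + 2) ≤ (2 * t) ^ (i + 2) :=
    le_trans (Nat.choose_le_pow _ _) (Nat.pow_le_pow_left (by omega) _)
  have h4 : 2000 ^ (i + 1) ≤ 2000 ^ (i + 2) := Nat.pow_le_pow_right (by norm_num) (by omega)
  calc 2000 ^ (i + 1) * ((t + 1).choose (i + 2) * ch n b (i + 2))
      ≤ 2000 ^ (i + 2) * ((2 * t) ^ (i + 2) * ch n b (i + 2)) := by gcongr
    _ = (4000 * t) ^ (i + 2) * ch n b (i + 2) := by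
        rw [← mul_assoc, ← mul_pow]; congr 2; ring
    _ ≤ _ := h2

theorem sum_card_missed (F : Finset (Finset ℕ)) (X : Finset ℕ) :
    ∑ y ∈ X, (F.filter fun G => y ∉ G).card = ∑ G ∈ F, (X \ G).card := by
  simp only [card_filter]
  rw [sum_comm]
  refine sum_congr rfl fun G _ => ?_
  rw [← card_filter, sdiff_eq_filter]

theorem king {n t b : ℕ} {F : Finset (Finset ℕ)} (hU : Unif n (t + (b + 1)) F) (ht : 1 ≤ t)
    (hn : 10000 * (t + (b + 1)) * t ≤ n) {X : Finset ℕ} (hX : X ⊆ range n)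
    (hXc : X.card = t + (b + 1) + 2)
    (h : ∀ y ∈ X, (F.filter fun G => y ∉ G).card ≤ (t + 4) * ch n b 1) :
    F.card ≤ (n - t - 1).choose b := by
  set N := (n - t - 1).choose b with hN
  set μ := (b + 1) / 100 with hμ
  have hkt : t + (b + 1) ≤ (t + (b + 1)) * t := Nat.le_mul_of_pos_right _ ht
  have htb : t * b + t ≤ (t + (b + 1)) * t := by nlinarith
  have hM1 : n.choose b ≤ 2 * N := by
    have h1 := choose_le_sub_add n b (t + 1)
    have h2 := ch_step (m := n) (b := b) (L := 4000 * t) (by nlinarith) 0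
    rw [ch_zero, zero_add] at h2
    rw [← Nat.sub_sub] at h1
    nlinarith
  have hsum : ∑ G ∈ F, (X \ G).card ≤ (t + (b + 1) + 2) * ((t + 4) * ch n b 1) := by
    rw [← sum_card_missed, ← hXc, ← smul_eq_mul, ← sum_const]
    exact sum_le_sum h
  have hbig : 4 * (F.filter fun G => μ < (X \ G).card).card ≤ N := by
    have h1 : (μ + 1) * (F.filter fun G => μ < (X \ G).card).card ≤ ∑ G ∈ F, (X \ G).card := by
      rw [mul_comm, ← smul_eq_mul, ← sum_const]
      exact le_trans (sum_le_sum fun G hG => (mem_filter.1 hG).2)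
        (sum_le_sum_of_subset (filter_subset _ _))
    have h2 := ch_ratio n b 0
    rw [ch_zero, zero_add] at h2
    have h3 : (t + (b + 1) + 2) * (t + 4) * 900 ≤ n - b := by
      have : (t + (b + 1) + 2) * (t + 4) ≤ 10 * ((t + (b + 1)) * t) := by nlinarith
      have h4 : 10000 * (t + (b + 1)) * t = 10000 * ((t + (b + 1)) * t) := by ring
      omega
    have h4 : 900 * ((t + (b + 1) + 2) * ((t + 4) * ch n b 1)) ≤ 2 * N * b := by
      calc 900 * ((t + (b + 1) + 2) * ((t + 4) * ch n b 1))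
          = ch n b 1 * ((t + (b + 1) + 2) * (t + 4) * 900) := by ring
        _ ≤ ch n b 1 * (n - b) := Nat.mul_le_mul_left _ h3
        _ ≤ n.choose b * b := h2
        _ ≤ _ := Nat.mul_le_mul_right _ hM1
    have h5 : b ≤ 100 * (μ + 1) := by omega
    have h6 : (μ + 1) * (900 * (F.filter fun G => μ < (X \ G).card).card) ≤ (μ + 1) * (200 * N) := by
      calc (μ + 1) * (900 * (F.filter fun G => μ < (X \ G).card).card)
          = 900 * ((μ + 1) * (F.filter fun G => μ < (X \ G).card).card) := by ring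
        _ ≤ 2 * N * b := le_trans (Nat.mul_le_mul_left _ (le_trans h1 hsum)) h4
        _ ≤ 2 * N * (100 * (μ + 1)) := Nat.mul_le_mul_left _ h5
        _ = _ := by ring
    have h7 := Nat.le_of_mul_le_mul_left h6 (Nat.succ_pos μ)
    omega
  have hcard : ∀ G ∈ F, (G \ X).card + 2 = (X \ G).card := by
    intro G hG
    have h1 := card_sdiff_add_card_inter G X
    have h2 := card_sdiff_add_card_inter X G
    rw [inter_comm, hXc] at h2
    rw [(hU G hG).2] at h1
    omega
  have hsmall : 2 * (F.filter fun G => ¬ μ < (X \ G).card).card ≤ N := by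
    rcases Nat.lt_or_ge μ 2 with h2 | h2
    · rw [filter_false_of_mem]
      · simp
      · intro G hG
        have := hcard G hG
        omega
    set Sm := (powerset (range n)).filter fun S => S.card ≤ μ with hSm
    have h1 : (F.filter fun G => ¬ μ < (X \ G).card).card ≤ (Sm ×ˢ Sm).card := by
      refine card_le_card_of_injOn (fun G => (X \ G, G \ X)) ?_ ?_
      · intro G hG
        obtain ⟨g1, g2⟩ := mem_filter.1 (mem_coe.1 hG)
        have := hcard G g1
        refine mem_coe.2 (mem_product.2 ⟨mem_filter.2 ⟨mem_powerset.2 (sdiff_subset.trans hX),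
          by simpa using g2⟩, mem_filter.2 ⟨mem_powerset.2 (sdiff_subset.trans (hU G g1).1), ?_⟩⟩)
        simp only
        omega
      · intro G _ G' _ e
        obtain ⟨e1, e2⟩ := Prod.ext_iff.1 e
        simp only at e1 e2
        ext x
        have a1 := Finset.ext_iff.1 e1 x
        have a2 := Finset.ext_iff.1 e2 x
        simp only [mem_sdiff] at a1 a2
        tauto
    rw [card_product] at h1
    have h3 : Sm.card ≤ (μ + 1) * n.choose μ := card_small_subsets (by
      have h4 : 10000 * (t + (b + 1)) * t = 10000 * ((t + (b + 1)) * t) := by ring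
      omega)
    have h4 := king_bound (n := n) (m := n - t - 1) (b := b) (j := μ) (by
      have h4 : 10000 * (t + (b + 1)) * t = 10000 * ((t + (b + 1)) * t) := by ring
      omega) (by
      have h4 : 10000 * (t + (b + 1)) * t = 10000 * ((t + (b + 1)) * t) := by ring
      omega) (by omega)
    exact le_trans (Nat.mul_le_mul_left _ (le_trans h1 (Nat.mul_le_mul h3 h3))) h4
  have := card_filter_add_card_filter_not (s := F) (fun G => μ < (X \ G).card)
  omega

end Pool.Agent.MP_217c9a_co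

end MrgPart4

-- ======== part 5: formerly Pool.Agent.MP_217c9a_co.Kill
section MrgPart5

/-
A shadow type inequality: a family cross-intersecting with a dense family forbids many sets.
-/

set_option autoImplicit false

open Finset

namespace Pool.Agent.MP_217c9a_co

/-- The b-subsets of range ν that are disjoint from some member of the family. -/
def nb (ν b : ℕ) (𝒢 : Finset (Finset ℕ)) : Finset (Finset ℕ) :=
  (powersetCard b (range ν)).filter fun A => ∃ G ∈ 𝒢, Disjoint A G

theorem mem_nb {ν b : ℕ} {𝒢 : Finset (Finset ℕ)} {A : Finset ℕ} :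
    A ∈ nb ν b 𝒢 ↔ (A ⊆ range ν ∧ A.card = b) ∧ ∃ G ∈ 𝒢, Disjoint A G := by
  unfold nb; rw [mem_filter, mem_powersetCard]

theorem kill_base (v : ℕ) (ν : ℕ) : ∀ (g : ℕ) (𝒢 : Finset (Finset ℕ)), Unif ν g 𝒢 → Shifted 𝒢 →
    (∀ G ∈ 𝒢, Hits 0 v G) → v ≤ g → 2 * g ≤ ν + v → 𝒢.card ≤ (nb ν (g - v) 𝒢).card := by
  have hcompl : ∀ (ν g : ℕ) (𝒢 : Finset (Finset ℕ)), Unif ν g 𝒢 → 2 * g = ν + v →
      𝒢.card ≤ (nb ν (g - v) 𝒢).card := by
    intro ν g 𝒢 hU he
    refine card_le_card_of_injOn (fun G => range ν \ G) ?_ ?_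
    · intro G hG
      have := hU G (mem_coe.1 hG)
      refine mem_coe.2 (mem_nb.2 ⟨⟨sdiff_subset, ?_⟩, G, mem_coe.1 hG, sdiff_disjoint⟩)
      rw [card_sdiff_of_subset this.1, card_range, this.2]
      omega
    · intro G hG G' hG' e
      have e' : range ν \ G = range ν \ G' := e
      rw [← Finset.sdiff_sdiff_eq_self (hU G (mem_coe.1 hG)).1, e',
        Finset.sdiff_sdiff_eq_self (hU G' (mem_coe.1 hG')).1]
  induction ν with
  | zero =>
    intro g 𝒢 hU _ _ h1 h2
    exact hcompl 0 g 𝒢 hU (by omega)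
  | succ ν ih =>
    intro g 𝒢 hU hS hH h1 h2
    rcases h2.eq_or_lt with h2 | h2
    · exact hcompl _ g 𝒢 hU h2
    rcases h1.eq_or_lt with h1 | h1
    · subst h1
      have hsub : 𝒢 ⊆ {range v} := by
        intro G hG
        obtain ⟨m, hm⟩ := hH G hG
        rw [zero_add, ← range_eq_Ico] at hm
        have a1 : (G ∩ range m).card ≤ m := le_trans (card_le_card inter_subset_right) (by simp)
        have a2 : (G ∩ range m).card ≤ v := le_trans (card_le_card inter_subset_left) (hU G hG).2.le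
        have a3 : m = v := by omega
        subst a3
        have a4 : G ∩ range m = range m :=
          eq_of_subset_of_card_le inter_subset_right (by rw [card_range]; omega)
        have a5 : range m ⊆ G := by rw [← a4]; exact inter_subset_left
        exact mem_singleton.2 (eq_of_subset_of_card_le a5 (by rw [card_range, (hU G hG).2])).symm
      rcases 𝒢.eq_empty_or_nonempty with rfl | ⟨G, hG⟩
      · simp
      · refine le_trans (card_le_card hsub) ?_
        rw [card_singleton]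
        exact card_pos.2 ⟨∅, mem_nb.2 ⟨⟨empty_subset _, by simp⟩, G, hG, disjoint_empty_left _⟩⟩
    have hsubr : ∀ S : Finset ℕ, S ⊆ range (ν + 1) → ν ∉ S → S ⊆ range ν := by
      intro S hS1 hS2
      rw [range_add_one] at hS1
      exact (subset_insert_iff_of_notMem hS2).1 hS1
    have hUd : Unif ν g (del 𝒢 ν) := fun S hS' =>
      ⟨hsubr S (hU S (mem_del.1 hS').1).1 (mem_del.1 hS').2, (hU S (mem_del.1 hS').1).2⟩
    have hUl : Unif ν (g - 1) (link 𝒢 ν) := fun S hS' =>
      ⟨hsubr S ((hU.link ν) S hS').1 (mem_link.1 hS').1, ((hU.link ν) S hS').2⟩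
    have hSd : Shifted (del 𝒢 ν) := by
      intro A hA i j hij hj hi
      refine mem_del.2 ⟨hS A (mem_del.1 hA).1 i j hij hj hi, ?_⟩
      have := mem_range.1 ((hUd A hA).1 hj)
      intro h
      rcases mem_insert.1 h with h | h
      · omega
      · exact (mem_del.1 hA).2 (mem_of_mem_erase h)
    have hSl : Shifted (link 𝒢 ν) := by
      intro A hA i j hij hj hi
      have hjν := mem_range.1 ((hUl A hA).1 hj)
      obtain ⟨a1, a2⟩ := mem_link.1 hA
      refine mem_link.2 ⟨?_, ?_⟩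
      · intro h
        rcases mem_insert.1 h with h | h
        · omega
        · exact a1 (mem_of_mem_erase h)
      · have := hS _ a2 i j hij (mem_insert_of_mem hj) (by
          intro h
          rcases mem_insert.1 h with h | h
          · omega
          · exact hi h)
        rwa [erase_insert_of_ne (by omega), Finset.insert_comm] at this
    have hHl : ∀ G ∈ link 𝒢 ν, Hits 0 v G := by
      intro G hG
      obtain ⟨a1, a2⟩ := mem_link.1 hG
      obtain ⟨m, hm⟩ := hH _ a2
      refine ⟨m, ?_⟩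
      have a3 : (insert ν G ∩ Ico 0 (0 + m)).card ≤ g :=
        le_trans (card_le_card inter_subset_left) (hU _ a2).2.le
      rwa [insert_inter_of_notMem (by simp; omega)] at hm
    have i1 := ih g _ hUd hSd (fun G hG => hH G (mem_del.1 hG).1) h1.le (by omega)
    have i2 := ih (g - 1) _ hUl hSl hHl (by omega) (by omega)
    have i3 := dg_add_del 𝒢 ν
    rw [card_link] at i2
    have j1 : (nb ν (g - v) (del 𝒢 ν)).card ≤ (del (nb (ν + 1) (g - v) 𝒢) ν).card := by
      refine card_le_card fun A hA => ?_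
      obtain ⟨⟨a1, a2⟩, G, a3, a4⟩ := mem_nb.1 hA
      refine mem_del.2 ⟨mem_nb.2 ⟨⟨a1.trans (range_subset_range.2 (by omega)), a2⟩, G,
        (mem_del.1 a3).1, a4⟩, fun h => ?_⟩
      have := mem_range.1 (a1 h)
      omega
    have j2 : (nb ν (g - 1 - v) (link 𝒢 ν)).card ≤ (link (nb (ν + 1) (g - v) 𝒢) ν).card := by
      refine card_le_card fun A hA => ?_
      obtain ⟨⟨a1, a2⟩, G, a3, a4⟩ := mem_nb.1 hA
      have hνA : ν ∉ A := fun h => by have := mem_range.1 (a1 h); omega
      obtain ⟨b1, b2⟩ := mem_link.1 a3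
      have hlt : (A ∪ G).card < (range ν).card := by
        have := card_union_le A G
        rw [(hUl G a3).2, a2] at this
        rw [card_range]; omega
      obtain ⟨i, hi1, hi2⟩ := exists_mem_notMem_of_card_lt_card hlt
      have hiν := mem_range.1 hi1
      rw [mem_union, not_or] at hi2
      have b3 := hS _ b2 i ν hiν (mem_insert_self _ _) (by
        intro h
        rcases mem_insert.1 h with h | h
        · omega
        · exact hi2.2 h)
      rw [erase_insert b1] at b3
      refine mem_link.2 ⟨hνA, mem_nb.2 ⟨⟨?_, ?_⟩, _, b3, ?_⟩⟩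
      · rw [range_add_one]; exact insert_subset_insert _ a1
      · rw [card_insert_of_notMem hνA, a2]; omega
      · rw [disjoint_insert_left, disjoint_insert_right]
        refine ⟨?_, hi2.1, a4⟩
        intro h
        rcases mem_insert.1 h with h | h
        · omega
        · exact b1 h
    rw [card_link] at j2
    have j3 := dg_add_del (nb (ν + 1) (g - v) 𝒢) ν
    omega

theorem kill_up {ν g b : ℕ} {𝒢 : Finset (Finset ℕ)} (hU : Unif ν g 𝒢) :
    (nb ν b 𝒢).card * (ν - g - b) ≤ (nb ν (b + 1) 𝒢).card * (b + 1) := by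
  refine card_mul_le_card_mul (fun A B => A ⊆ B) ?_ ?_
  · intro A hA
    obtain ⟨⟨a1, a2⟩, G, a3, a4⟩ := mem_nb.1 hA
    have h1 : ν - g - b ≤ (range ν \ (A ∪ G)).card := by
      have := card_union_le A G
      have h2 := le_card_sdiff (A ∪ G) (range ν)
      rw [a2, (hU G a3).2] at this
      rw [card_range] at h2
      omega
    refine le_trans h1 (card_le_card_of_injOn (fun x => insert x A) ?_ ?_)
    · intro x hx
      obtain ⟨x1, x2⟩ := mem_sdiff.1 (mem_coe.1 hx)
      rw [mem_union, not_or] at x2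
      refine mem_coe.2 (mem_bipartiteAbove _ |>.2 ⟨mem_nb.2 ⟨⟨insert_subset x1 a1, ?_⟩, G, a3, ?_⟩,
        subset_insert _ _⟩)
      · rw [card_insert_of_notMem x2.1, a2]
      · rw [disjoint_insert_left]; exact ⟨x2.2, a4⟩
    · intro x hx y _ e
      obtain ⟨-, x2⟩ := mem_sdiff.1 (mem_coe.1 hx)
      rw [mem_union, not_or] at x2
      have e' : insert x A = insert y A := e
      have : x ∈ insert y A := e' ▸ mem_insert_self x A
      rcases mem_insert.1 this with h | h
      · exact h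
      · exact absurd h x2.1
  · intro B hB
    obtain ⟨⟨a1, a2⟩, -⟩ := mem_nb.1 hB
    have : ((nb ν b 𝒢).bipartiteBelow (fun A B => A ⊆ B) B) ⊆ powersetCard b B := by
      intro A hA
      obtain ⟨c1, c2⟩ := (mem_bipartiteBelow _).1 hA
      exact mem_powersetCard.2 ⟨c2, (mem_nb.1 c1).1.2⟩
    refine le_trans (card_le_card this) ?_
    rw [card_powersetCard, a2, Nat.choose_succ_self_right]

theorem kill_iter {ν g b : ℕ} {𝒢 : Finset (Finset ℕ)} (hU : Unif ν g 𝒢) (e : ℕ) :
    (nb ν b 𝒢).card * (ν - g - (b + e)) ^ e ≤ (nb ν (b + e) 𝒢).card * (b + e) ^ e := by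
  induction e with
  | zero => simp
  | succ e ih =>
    have h1 := kill_up (b := b + e) hU
    have h2 : (ν - g - (b + (e + 1))) ^ e ≤ (ν - g - (b + e)) ^ e :=
      Nat.pow_le_pow_left (by omega) e
    have h3 : (b + e) ^ e ≤ (b + (e + 1)) ^ e := Nat.pow_le_pow_left (by omega) e
    calc (nb ν b 𝒢).card * (ν - g - (b + (e + 1))) ^ (e + 1)
        = ((nb ν b 𝒢).card * (ν - g - (b + (e + 1))) ^ e) * (ν - g - (b + (e + 1))) := by ring
      _ ≤ ((nb ν b 𝒢).card * (ν - g - (b + e)) ^ e) * (ν - g - (b + e)) :=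
          Nat.mul_le_mul (Nat.mul_le_mul_left _ h2) (by omega)
      _ ≤ ((nb ν (b + e) 𝒢).card * (b + e) ^ e) * (ν - g - (b + e)) := Nat.mul_le_mul_right _ ih
      _ = ((nb ν (b + e) 𝒢).card * (ν - g - (b + e))) * (b + e) ^ e := by ring
      _ ≤ ((nb ν (b + e + 1) 𝒢).card * (b + e + 1)) * (b + (e + 1)) ^ e := Nat.mul_le_mul h1 h3
      _ = _ := by rw [← add_assoc]; ring

theorem kill_range {ν g b o e : ℕ} {𝒜 𝒢 : Finset (Finset ℕ)} (hA : Unif ν b 𝒜) (hG : Unif ν g 𝒢)
    (hc : Cross 1 𝒜 𝒢) (h : o * ch ν b 1 + ch ν b 2 < 𝒜.card) (he : g + e = o + 1 + b)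
    (hν : 2 * g ≤ ν) : 𝒢.card * (ν - g - b) ^ e ≤ (ν.choose b - 𝒜.card) * b ^ e := by
  obtain ⟨𝒜', 𝒢', g1, g2, g3, g4, g5, g6, g7⟩ := exists_shifted 𝒜 𝒢 hA hG hc
  rw [← g4, ← g5]
  have hH := hits_of_dense g1 g3 g6 le_rfl (by rwa [g4])
  have e0 : 2 * 1 + o - 1 = o + 1 := by omega
  rw [e0] at hH
  rcases Nat.lt_or_ge g (o + 1) with h1 | h1
  · have := card_le_of_hits g2 hH
    unfold ch at this
    rw [if_neg (by omega)] at this
    rw [Nat.le_zero.1 this]
    simp
  have k0 := kill_base (o + 1) ν g 𝒢' g2 g7 hH h1 (by omega)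
  have k1 := kill_iter (b := g - (o + 1)) g2 e
  have e1 : g - (o + 1) + e = b := by omega
  rw [e1] at k1
  have k2 : (nb ν b 𝒢').card + 𝒜'.card ≤ ν.choose b := by
    rw [← card_union_of_disjoint]
    · have e0 : ν.choose b = (powersetCard b (range ν)).card := by
        rw [card_powersetCard, card_range]
      rw [e0]
      refine card_le_card (union_subset (filter_subset _ _) fun A hA' => ?_)
      exact mem_powersetCard.2 (g1 A hA')
    · rw [disjoint_left]
      intro A hA1 hA2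
      obtain ⟨-, G, a3, a4⟩ := mem_nb.1 hA1
      have := g3 A hA2 G a3
      rw [disjoint_iff_inter_eq_empty.1 a4] at this
      simp at this
  calc 𝒢'.card * (ν - g - b) ^ e ≤ (nb ν (g - (o + 1)) 𝒢').card * (ν - g - b) ^ e :=
        Nat.mul_le_mul_right _ k0
    _ ≤ (nb ν b 𝒢').card * b ^ e := k1
    _ ≤ _ := Nat.mul_le_mul_right _ (by omega)

theorem kill {U : Finset ℕ} {g b o e : ℕ} {𝒜 𝒢 : Finset (Finset ℕ)}
    (hA : ∀ A ∈ 𝒜, A ⊆ U ∧ A.card = b) (hG : ∀ A ∈ 𝒢, A ⊆ U ∧ A.card = g)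
    (hc : Cross 1 𝒜 𝒢) (h : o * ch U.card b 1 + ch U.card b 2 < 𝒜.card) (he : g + e = o + 1 + b)
    (hν : 2 * g ≤ U.card) :
    𝒢.card * (U.card - g - b) ^ e ≤ (U.card.choose b - 𝒜.card) * b ^ e := by
  obtain ⟨f, hf1, hf2⟩ : ∃ f : ℕ → ℕ, Set.InjOn f U ∧ ∀ x ∈ U, f x < U.card := by
    refine ⟨fun x => if h : x ∈ U then (U.equivFin ⟨x, h⟩ : ℕ) else 0, ?_, ?_⟩
    · intro x hx y hy e
      have hx' : x ∈ U := hx
      have hy' : y ∈ U := hy
      simp only [hx', hy', dif_pos] at e
      have := U.equivFin.injective (Fin.ext e)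
      exact congrArg Subtype.val this
    · intro x hx
      simp only [hx, dif_pos]
      exact (U.equivFin ⟨x, hx⟩).2
  have hunif : ∀ (a : ℕ) (𝒞 : Finset (Finset ℕ)), (∀ A ∈ 𝒞, A ⊆ U ∧ A.card = a) →
      Unif U.card a (𝒞.image (image f)) ∧ (𝒞.image (image f)).card = 𝒞.card := by
    intro a 𝒞 hC
    constructor
    · intro S hS
      obtain ⟨A, hA', rfl⟩ := mem_image.1 hS
      refine ⟨fun y hy => ?_, ?_⟩
      · obtain ⟨x, hx, rfl⟩ := mem_image.1 hy
        exact mem_range.2 (hf2 x ((hC A hA').1 hx))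
      · rw [card_image_of_injOn (hf1.mono (coe_subset.2 (hC A hA').1)), (hC A hA').2]
    · refine card_image_of_injOn ?_
      intro A hA1 B hB1 e
      have hAU := (hC A (mem_coe.1 hA1)).1
      have hBU := (hC B (mem_coe.1 hB1)).1
      ext x
      constructor
      · intro hx
        have : f x ∈ B.image f := e ▸ mem_image_of_mem f hx
        obtain ⟨y, hy, e2⟩ := mem_image.1 this
        rwa [← hf1 (hBU hy) (hAU hx) e2]
      · intro hx
        have : f x ∈ A.image f := e ▸ mem_image_of_mem f hx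
        obtain ⟨y, hy, e2⟩ := mem_image.1 this
        rwa [← hf1 (hAU hy) (hBU hx) e2]
  obtain ⟨a1, a2⟩ := hunif b 𝒜 hA
  obtain ⟨b1, b2⟩ := hunif g 𝒢 hG
  rw [← a2, ← b2]
  refine kill_range a1 b1 ?_ (by rwa [a2]) he hν
  intro S hS T hT
  obtain ⟨A, hA', rfl⟩ := mem_image.1 hS
  obtain ⟨G, hG', rfl⟩ := mem_image.1 hT
  obtain ⟨x, hx⟩ := card_pos.1 (hc A hA' G hG')
  exact card_pos.2 ⟨f x, mem_inter.2 ⟨mem_image_of_mem f (mem_inter.1 hx).1,
    mem_image_of_mem f (mem_inter.1 hx).2⟩⟩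

end Pool.Agent.MP_217c9a_co

end MrgPart5

-- ======== part 6: formerly Pool.Agent.MP_217c9a_co.Fine
section MrgPart6

/-
The local step: if few members miss a point of T, some vertex of a given (s+2)-set has small
degree.
-/

set_option autoImplicit false

open Finset

namespace Pool.Agent.MP_217c9a_co

theorem card_le_choose_mul {G : Finset (Finset ℕ)} {T : Finset ℕ} {y j : ℕ} (p : Prop)
    (h : ∀ S ∈ G, (T \ S).card = j ∧ (y ∈ S ↔ p)) :
    G.card ≤ T.card.choose j * (G.image fun S => S \ insert y T).card := by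
  refine card_le_mul_card_image G _ fun O _ => ?_
  rw [← card_powersetCard]
  refine card_le_card_of_injOn (fun S => T \ S) ?_ ?_
  · intro S hS
    obtain ⟨s1, -⟩ := mem_filter.1 (mem_coe.1 hS)
    exact mem_coe.2 (mem_powersetCard.2 ⟨sdiff_subset, (h S s1).1⟩)
  · intro S hS S' hS' e
    obtain ⟨s1, s2⟩ := mem_filter.1 (mem_coe.1 hS)
    obtain ⟨s3, s4⟩ := mem_filter.1 (mem_coe.1 hS')
    have e1 : T \ S = T \ S' := e
    have e2 : S \ insert y T = S' \ insert y T := s2.trans s4.symm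
    ext x
    have a1 := Finset.ext_iff.1 e1 x
    have a2 := Finset.ext_iff.1 e2 x
    have a3 := (h S s1).2
    have a4 := (h S' s3).2
    simp only [mem_sdiff, mem_insert] at a1 a2
    by_cases hx : x = y
    · subst hx; tauto
    · tauto

section
variable {n t b : ℕ} {F : Finset (Finset ℕ)} {T : Finset ℕ} {y : ℕ}

theorem class_bound (hU : Unif n (t + (b + 1)) F) (hC : Cross t F F) (ht : 1 ≤ t) (hb : 1 ≤ b)
    (hn : 10000 * (t + (b + 1)) * t ≤ n) (hT : T ⊆ range n) (hTc : T.card = t)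
    (hy : y ∈ range n) (hyT : y ∉ T)
    (hd : (n - t - 1).choose b ≤ 2 * (F.filter fun G => insert y T ⊆ G).card)
    {G : Finset (Finset ℕ)} (hG : G ⊆ F) {j g o : ℕ} (p : Prop) (hj : j ≤ t) (ho : o ≤ 2 * t)
    (h : ∀ S ∈ G, (T \ S).card = j ∧ (y ∈ S ↔ p))
    (hg : ∀ S ∈ G, (S ∩ insert y T).card + g = t + (b + 1)) (hg1 : b + 2 ≤ g) (hg2 : g ≤ b + 2 * t)
    (he : g + j = o + 1 + b) :
    4000 ^ j * G.card ≤ (n - t - 1).choose b - (F.filter fun G => insert y T ⊆ G).card := by
  set D := insert y T with hD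
  have hDc : D.card = t + 1 := by rw [hD, card_insert_of_notMem hyT, hTc]
  have hDn : D ⊆ range n := insert_subset hy hT
  set U := range n \ D with hUdef
  have hUc : U.card = n - t - 1 := by
    rw [hUdef, card_sdiff_of_subset hDn, card_range, hDc]; omega
  set A := (F.filter fun G => D ⊆ G).image fun G => G \ D with hA
  have hAc : A.card = (F.filter fun G => D ⊆ G).card :=
    card_image_sdiff_of_inter (P := D) fun G hG => inter_eq_right.2 (mem_filter.1 hG).2
  set O := G.image fun S => S \ D with hO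
  have hkt : t + (b + 1) ≤ (t + (b + 1)) * t := Nat.le_mul_of_pos_right _ ht
  have htb : t * b + t ≤ (t + (b + 1)) * t := by nlinarith
  have hn' : 10000 * ((t + (b + 1)) * t) ≤ n := by rwa [← mul_assoc]
  have hL : 4000 * t * b = 4000 * (t * b) := by ring
  have hNpos : 0 < (n - t - 1).choose b := Nat.choose_pos (by omega)
  have k1 := kill (U := U) (g := g) (b := b) (o := o) (e := j) (𝒜 := A) (𝒢 := O) (by
      intro S hS
      obtain ⟨S', hS', rfl⟩ := mem_image.1 hS
      obtain ⟨g1, g2⟩ := mem_filter.1 hS'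
      refine ⟨sdiff_subset_sdiff (hU S' g1).1 subset_rfl, ?_⟩
      rw [card_sdiff_of_subset g2, (hU S' g1).2, hDc]; omega) (by
      intro S hS
      obtain ⟨S', hS', rfl⟩ := mem_image.1 hS
      refine ⟨sdiff_subset_sdiff (hU S' (hG hS')).1 subset_rfl, ?_⟩
      have h1 := card_sdiff_add_card_inter S' D
      have h2 := hg S' hS'
      rw [(hU S' (hG hS')).2] at h1
      omega) (by
      intro S hS S' hS'
      obtain ⟨S1, hS1, rfl⟩ := mem_image.1 hS
      obtain ⟨S2, hS2, rfl⟩ := mem_image.1 hS'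
      have h1 := hC S1 (mem_filter.1 hS1).1 S2 (hG hS2)
      rw [card_inter_split S1 S2 D, inter_assoc] at h1
      have h2 : (S1 ∩ (S2 ∩ D)).card ≤ (S2 ∩ D).card := card_le_card inter_subset_right
      have h3 := hg S2 hS2
      omega) (by
      rw [hUc, hAc]
      have h1 := ch_step (m := n - t - 1) (b := b) (L := 4000 * t) (by omega) 0
      have h2 : 1 * ch (n - t - 1) b 2 ≤ ch (n - t - 1) b 1 :=
        ch_step (m := n - t - 1) (b := b) (L := 1) (by omega) 1
      rw [ch_zero, zero_add] at h1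
      have h3 : o * ch (n - t - 1) b 1 ≤ 2 * t * ch (n - t - 1) b 1 := Nat.mul_le_mul_right _ ho
      have h4 : ch (n - t - 1) b 1 ≤ t * ch (n - t - 1) b 1 := Nat.le_mul_of_pos_left _ ht
      have h5 : 4000 * t * ch (n - t - 1) b 1 = 4000 * (t * ch (n - t - 1) b 1) := by ring
      have h6 : 2 * t * ch (n - t - 1) b 1 = 2 * (t * ch (n - t - 1) b 1) := by ring
      omega) he (by rw [hUc]; omega)
  rw [hUc, hAc] at k1
  have k2 : (4000 * t * b) ^ j ≤ (n - t - 1 - g - b) ^ j := Nat.pow_le_pow_left (by omega) j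
  have k3 : O.card * (4000 * t) ^ j
      ≤ (n - t - 1).choose b - (F.filter fun G => D ⊆ G).card := by
    refine Nat.le_of_mul_le_mul_right (c := b ^ j) ?_ (by positivity)
    rw [mul_assoc, ← mul_pow]
    exact le_trans (Nat.mul_le_mul_left _ k2) k1
  have k4 := card_le_choose_mul p h
  rw [hTc] at k4
  calc 4000 ^ j * G.card ≤ 4000 ^ j * (t ^ j * O.card) :=
        Nat.mul_le_mul_left _ (le_trans k4 (Nat.mul_le_mul_right _ (Nat.choose_le_pow _ _)))
    _ = O.card * (4000 * t) ^ j := by rw [mul_pow]; ring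
    _ ≤ _ := k3

theorem single_kill (hU : Unif n (t + (b + 1)) F) (hC : Cross t F F)
    (hT : T ⊆ range n) (hTc : T.card = t) (hy : y ∈ range n) (hyT : y ∉ T)
    {S : Finset ℕ} (hS : S ∈ F) (hS1 : (T \ S).card = 1) (hS2 : y ∉ S) :
    (F.filter fun G => insert y T ⊆ G).card + (n - t - 1 - (b + 2)).choose b
      ≤ (n - t - 1).choose b := by
  set D := insert y T with hD
  have hDc : D.card = t + 1 := by rw [hD, card_insert_of_notMem hyT, hTc]
  have hDn : D ⊆ range n := insert_subset hy hT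
  set U := range n \ D with hUdef
  have hUc : U.card = n - t - 1 := by
    rw [hUdef, card_sdiff_of_subset hDn, card_range, hDc]; omega
  set A := (F.filter fun G => D ⊆ G).image fun G => G \ D with hA
  have hAc : A.card = (F.filter fun G => D ⊆ G).card :=
    card_image_sdiff_of_inter (P := D) fun G hG => inter_eq_right.2 (mem_filter.1 hG).2
  have hSD : (S ∩ D).card + 1 = t := by
    have h1 := card_sdiff_add_card_inter T S
    rw [hD, inter_insert_of_notMem hS2, inter_comm]
    omega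
  have hW : (U \ (S \ D)).card = n - t - 1 - (b + 2) := by
    rw [card_sdiff_of_subset (sdiff_subset_sdiff (hU S hS).1 subset_rfl), hUc]
    have h1 := card_sdiff_add_card_inter S D
    rw [(hU S hS).2] at h1
    omega
  rw [← hAc, ← hW, ← hUc, ← card_powersetCard, ← card_powersetCard, ← card_union_of_disjoint]
  · refine card_le_card (union_subset ?_ (powersetCard_mono sdiff_subset))
    intro S0 hS0
    obtain ⟨S', hS', rfl⟩ := mem_image.1 hS0
    obtain ⟨g1, g2⟩ := mem_filter.1 hS'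
    refine mem_powersetCard.2 ⟨sdiff_subset_sdiff (hU S' g1).1 subset_rfl, ?_⟩
    rw [card_sdiff_of_subset g2, (hU S' g1).2, hDc]; omega
  · rw [disjoint_left]
    intro S0 hS0 hS0'
    obtain ⟨S', hS', rfl⟩ := mem_image.1 hS0
    have h1 := hC S' (mem_filter.1 hS').1 S hS
    rw [card_inter_split S' S D, inter_assoc] at h1
    have h2 : (S' ∩ (S ∩ D)).card ≤ (S ∩ D).card := card_le_card inter_subset_right
    obtain ⟨x, hx⟩ := card_pos.1 (show 0 < (S' \ D ∩ (S \ D)).card by omega)
    have h3 := (mem_powersetCard.1 hS0').1 (mem_inter.1 hx).1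
    exact (mem_sdiff.1 h3).2 (mem_inter.1 hx).2

theorem conc_count (hU : Unif n (t + (b + 1)) F) (hTc : T.card = t) {X : Finset ℕ}
    (hXc : X.card = b + 3) (hXT : Disjoint X T) {j : ℕ} (hj : 2 * j ≤ n) :
    (F.filter fun S => (T \ S).card = 1 ∧ (X \ S).card ≤ j + 1).card
      ≤ t * (2 ^ (b + 3) * ((j + 1) * n.choose j)) := by
  set Sm := (powerset (range n)).filter fun S => S.card ≤ j with hSm
  have h1 : (F.filter fun S => (T \ S).card = 1 ∧ (X \ S).card ≤ j + 1).card
      ≤ (powersetCard 1 T ×ˢ (powerset X ×ˢ Sm)).card := by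
    refine card_le_card_of_injOn (fun S => (T \ S, X \ S, S \ (T ∪ X))) ?_ ?_
    · intro S hS
      obtain ⟨g1, g2, g3⟩ := mem_filter.1 (mem_coe.1 hS)
      refine mem_coe.2 (mem_product.2 ⟨mem_powersetCard.2 ⟨sdiff_subset, g2⟩, mem_product.2
        ⟨mem_powerset.2 sdiff_subset, mem_filter.2
          ⟨mem_powerset.2 (sdiff_subset.trans (hU S g1).1), ?_⟩⟩⟩)
      have a1 := card_sdiff_add_card_inter S (T ∪ X)
      have a2 := card_sdiff_add_card_inter T S
      have a3 := card_sdiff_add_card_inter X S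
      rw [inter_union_distrib_left, card_union_of_disjoint
        (Disjoint.mono inter_subset_right inter_subset_right hXT.symm), (hU S g1).2,
        inter_comm S T, inter_comm S X] at a1
      simp only
      omega
    · intro G _ G' _ e
      obtain ⟨e1, e2⟩ := Prod.ext_iff.1 e
      obtain ⟨e2, e3⟩ := Prod.ext_iff.1 e2
      simp only at e1 e2 e3
      ext x
      have a1 := Finset.ext_iff.1 e1 x
      have a2 := Finset.ext_iff.1 e2 x
      have a3 := Finset.ext_iff.1 e3 x
      simp only [mem_sdiff, mem_union] at a1 a2 a3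
      tauto
  rw [card_product, card_product, card_powersetCard, card_powerset, hXc, hTc,
    Nat.choose_one_right] at h1
  exact le_trans h1 (Nat.mul_le_mul_left _ (Nat.mul_le_mul_left _ (card_small_subsets hj)))

theorem fine_step (hU : Unif n (t + (b + 1)) F) (hC : Cross t F F) (ht : 1 ≤ t)
    (hn : 10000 * (t + (b + 1)) * t ≤ n) (hT : T ⊆ range n) (hTc : T.card = t) {X : Finset ℕ}
    (hX : X ⊆ range n) (hXc : X.card = b + 3) (hXT : Disjoint X T)
    (hG : 2 * (F.filter fun S => ¬ T ⊆ S).card ≤ (n - t - 1).choose b) :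
    ∃ y ∈ X, dg F y ≤ (n - t - 1).choose b := by
  by_contra hcon
  push Not at hcon
  set N := (n - t - 1).choose b with hN
  set G := F.filter fun S => ¬ T ⊆ S with hGdef
  have hkt : t + (b + 1) ≤ (t + (b + 1)) * t := Nat.le_mul_of_pos_right _ ht
  have htb : t * b + t ≤ (t + (b + 1)) * t := by nlinarith
  have hn' : 10000 * ((t + (b + 1)) * t) ≤ n := by rwa [← mul_assoc]
  have hL : 4000 * t * b = 4000 * (t * b) := by ring
  have hyT : ∀ y ∈ X, y ∉ T := fun y hy => disjoint_left.1 hXT hy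
  have hdeg : ∀ y, dg F y ≤ (F.filter fun S => insert y T ⊆ S).card + dg G y := by
    intro y
    unfold dg
    refine le_trans (card_le_card ?_) (card_union_le _ _)
    intro S hS
    obtain ⟨s1, s2⟩ := mem_filter.1 hS
    by_cases h : T ⊆ S
    · exact mem_union_left _ (mem_filter.2 ⟨s1, insert_subset s2 h⟩)
    · exact mem_union_right _ (mem_filter.2 ⟨mem_filter.2 ⟨s1, h⟩, s2⟩)
  have hdG : ∀ y, dg G y ≤ G.card := fun y => card_filter_le _ _
  have hAle : ∀ y ∈ X, (F.filter fun S => insert y T ⊆ S).card ≤ N := by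
    intro y hy
    set D := insert y T with hD
    have hDc : D.card = t + 1 := by rw [hD, card_insert_of_notMem (hyT y hy), hTc]
    have hDn : D ⊆ range n := insert_subset (hX hy) hT
    have hUc : (range n \ D).card = n - t - 1 := by
      rw [card_sdiff_of_subset hDn, card_range, hDc]; omega
    rw [← card_image_sdiff_of_inter (D := D) (P := D)
      fun G hG => inter_eq_right.2 (mem_filter.1 hG).2, hN, ← hUc, ← card_powersetCard]
    refine card_le_card fun S0 hS0 => ?_
    obtain ⟨S', hS', rfl⟩ := mem_image.1 hS0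
    obtain ⟨g1, g2⟩ := mem_filter.1 hS'
    refine mem_powersetCard.2 ⟨sdiff_subset_sdiff (hU S' g1).1 subset_rfl, ?_⟩
    rw [card_sdiff_of_subset g2, (hU S' g1).2, hDc]; omega
  obtain ⟨y0, hy0⟩ : X.Nonempty := card_pos.1 (by omega)
  have hb : 1 ≤ b := by
    by_contra h0
    have hb0 : b = 0 := by omega
    have : N = 1 := by rw [hN, hb0]; simp
    have := hcon y0 hy0
    have := hdeg y0
    have := hdG y0
    have := hAle y0 hy0
    omega
  have hdense : ∀ y ∈ X, N ≤ 2 * (F.filter fun S => insert y T ⊆ S).card := by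
    intro y hy
    have := hcon y hy
    have := hdeg y
    have := hdG y
    omega
  set G1 := F.filter fun S => (T \ S).card = 1 with hG1
  -- members that miss at least two points of T
  have hmany : ∀ y ∈ X, 1000 * dg (F.filter fun S => 2 ≤ (T \ S).card) y
      ≤ N - (F.filter fun S => insert y T ⊆ S).card := by
    intro y hy
    have hsub : ((F.filter fun S => 2 ≤ (T \ S).card).filter fun S => y ∈ S) ⊆
        (range (t - 1)).biUnion fun i => F.filter fun S => (T \ S).card = i + 2 ∧ y ∈ S := by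
      intro S hS
      obtain ⟨s1, s2⟩ := mem_filter.1 hS
      obtain ⟨s3, s4⟩ := mem_filter.1 s1
      have : (T \ S).card ≤ T.card := card_le_card sdiff_subset
      exact mem_biUnion.2 ⟨(T \ S).card - 2, mem_range.2 (by omega),
        mem_filter.2 ⟨s3, by omega, s2⟩⟩
    refine le_trans (Nat.mul_le_mul_left _ (le_trans (card_le_card hsub) card_biUnion_le))
      (geo_sum _ fun i hi => ?_)
    have := class_bound hU hC ht hb hn hT hTc (hX hy) (hyT y hy) (hdense y hy)
      (G := F.filter fun S => (T \ S).card = i + 2 ∧ y ∈ S) (filter_subset _ _) (j := i + 2)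
      (g := b + i + 2) (o := 2 * i + 3) True (by omega) (by omega)
      (fun S hS => ⟨(mem_filter.1 hS).2.1, by simp [(mem_filter.1 hS).2.2]⟩) (by
        intro S hS
        obtain ⟨s1, s2, s3⟩ := mem_filter.1 hS
        have h1 := card_sdiff_add_card_inter T S
        rw [inter_insert_of_mem s3,
          card_insert_of_notMem (fun h => hyT y hy (mem_inter.1 h).2), inter_comm]
        omega) (by omega) (by omega) (by omega)
    refine le_trans (Nat.mul_le_mul_right _ ?_) this
    exact le_trans (Nat.pow_le_pow_left (by norm_num) _) (Nat.pow_le_pow_right (by norm_num)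
      (by omega))
  -- members that miss exactly one point of T and avoid y
  have hone : ∀ y ∈ X, 4000 * (G1.filter fun S => y ∉ S).card
      ≤ N - (F.filter fun S => insert y T ⊆ S).card := by
    intro y hy
    have := class_bound hU hC ht hb hn hT hTc (hX hy) (hyT y hy) (hdense y hy)
      (G := G1.filter fun S => y ∉ S) ((filter_subset _ _).trans (filter_subset _ _)) (j := 1)
      (g := b + 2) (o := 2) False (by omega) (by omega)
      (fun S hS => ⟨(mem_filter.1 (mem_filter.1 hS).1).2, by simp [(mem_filter.1 hS).2]⟩) (by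
        intro S hS
        obtain ⟨s1, s3⟩ := mem_filter.1 hS
        obtain ⟨s1, s2⟩ := mem_filter.1 s1
        have h1 := card_sdiff_add_card_inter T S
        rw [inter_insert_of_notMem s3, inter_comm]
        omega) (by omega) (by omega) (by omega)
    rwa [pow_one] at this
  set j := (b + 2) / 100 - 1 with hj
  set Co := F.filter fun S => (T \ S).card = 1 ∧ 100 * (X \ S).card < b + 3 with hCo
  set Sp := F.filter fun S => (T \ S).card = 1 ∧ ¬ 100 * (X \ S).card < b + 3 with hSp
  have hmiss : ∀ S ∈ G1, 1 ≤ (X \ S).card := by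
    intro S hS
    obtain ⟨s1, s2⟩ := mem_filter.1 hS
    have a1 := card_sdiff_add_card_inter T S
    have a2 := card_sdiff_add_card_inter X S
    have a3 : (T ∩ S).card + (X ∩ S).card ≤ S.card := by
      rw [← card_union_of_disjoint (Disjoint.mono inter_subset_left inter_subset_left hXT.symm)]
      exact card_le_card (union_subset inter_subset_right inter_subset_right)
    rw [(hU S s1).2] at a3
    omega
  have hsplit : ∀ y, dg G y ≤ dg (F.filter fun S => 2 ≤ (T \ S).card) y + (Co.card + Sp.card) := by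
    intro y
    unfold dg
    refine le_trans (card_le_card ?_) (le_trans (card_union_le _ (Co ∪ Sp))
      (Nat.add_le_add_left (card_union_le _ _) _))
    intro S hS
    obtain ⟨s1, s2⟩ := mem_filter.1 hS
    obtain ⟨s3, s4⟩ := mem_filter.1 s1
    have h0 : (T \ S).card ≠ 0 := fun h => s4 (sdiff_eq_empty_iff_subset.1 (card_eq_zero.1 h))
    by_cases h2 : 2 ≤ (T \ S).card
    · exact mem_union_left _ (mem_filter.2 ⟨mem_filter.2 ⟨s3, h2⟩, s2⟩)
    · refine mem_union_right _ ?_
      by_cases h3 : 100 * (X \ S).card < b + 3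
      · exact mem_union_left _ (mem_filter.2 ⟨s3, by omega, h3⟩)
      · exact mem_union_right _ (mem_filter.2 ⟨s3, by omega, h3⟩)
  have hchoose : ∃ y ∈ X, Sp.card ≤ 100 * (G1.filter fun S => y ∉ S).card ∧
      (Co.Nonempty → (G1.filter fun S => y ∉ S).Nonempty) := by
    rcases Sp.eq_empty_or_nonempty with h | h
    · rcases Co.eq_empty_or_nonempty with h' | ⟨S, hS⟩
      · exact ⟨y0, hy0, by simp [h], by simp [h']⟩
      · obtain ⟨s1, s2, s3⟩ := mem_filter.1 hS
        have hS1 : S ∈ G1 := mem_filter.2 ⟨s1, s2⟩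
        obtain ⟨y, hy⟩ := card_pos.1 (hmiss S hS1)
        exact ⟨y, (mem_sdiff.1 hy).1, by simp [h],
          fun _ => ⟨S, mem_filter.2 ⟨hS1, (mem_sdiff.1 hy).2⟩⟩⟩
    · have h1 : ∑ _y ∈ X, Sp.card ≤ ∑ y ∈ X, 100 * (Sp.filter fun S => y ∉ S).card := by
        rw [← mul_sum, sum_card_missed, mul_sum, sum_const, hXc, smul_eq_mul, mul_comm,
          ← smul_eq_mul, ← sum_const]
        exact sum_le_sum fun S hS => not_lt.1 (mem_filter.1 hS).2.2
      obtain ⟨y, hy, h2⟩ := exists_le_of_sum_le ⟨y0, hy0⟩ h1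
      have h3 : (Sp.filter fun S => y ∉ S).card ≤ (G1.filter fun S => y ∉ S).card := by
        refine card_le_card (filter_subset_filter _ fun S hS => ?_)
        exact mem_filter.2 ⟨(mem_filter.1 hS).1, (mem_filter.1 hS).2.1⟩
      have h4 := card_pos.2 h
      exact ⟨y, hy, by omega, fun _ => card_pos.1 (by omega)⟩
  obtain ⟨y, hy, c1, c2⟩ := hchoose
  have hCo4 : 4 * Co.card ≤ N - (F.filter fun S => insert y T ⊆ S).card := by
    rcases Co.eq_empty_or_nonempty with h' | h'
    · simp [h']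
    obtain ⟨S, hS⟩ := c2 h'
    obtain ⟨s1, s3⟩ := mem_filter.1 hS
    obtain ⟨s1, s2⟩ := mem_filter.1 s1
    have k1 := single_kill hU hC hT hTc (hX hy) (hyT y hy) s1 s2 s3
    obtain ⟨S', hS'⟩ := h'
    obtain ⟨u1, u2, u3⟩ := mem_filter.1 hS'
    have u4 := hmiss S' (mem_filter.2 ⟨u1, u2⟩)
    have k2 := conc_count hU hTc hXc hXT (j := j) (by omega)
    have k3 : Co.card ≤ (F.filter fun S => (T \ S).card = 1 ∧ (X \ S).card ≤ j + 1).card := by
      refine card_le_card fun S hS => ?_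
      obtain ⟨v1, v2, v3⟩ := mem_filter.1 hS
      exact mem_filter.2 ⟨v1, v2, by omega⟩
    have k4 := conc_bound (n := n) (m := n - t - 1 - (b + 2)) (t := t) (b := b) (j := j)
      (by omega) (by omega) ht (by omega)
    have k5 := le_trans (Nat.mul_le_mul_left 4 (le_trans k3 k2)) k4
    omega
  have := hcon y hy
  have := hdeg y
  have := hsplit y
  have := hmany y hy
  have := hone y hy
  have := hAle y hy
  omega

end

end Pool.Agent.MP_217c9a_co

end MrgPart6

-- ======== part 7: formerly Pool.Agent.MP_217c9a_co.Main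
section MrgPart7

/-
Among any k + 2 vertices of a t-intersecting family one has degree at most C(n-t-1, k-t-1).
-/

set_option autoImplicit false

open Finset

namespace Pool.Agent.MP_217c9a_co

theorem card_three_le {n t b : ℕ} {F : Finset (Finset ℕ)} (hU : Unif n (t + (b + 1)) F)
    {T : Finset ℕ} (hTc : T.card = t) {x y z : ℕ} (hx : x ∉ T) (hy : y ∉ T) (hz : z ∉ T)
    (hxy : x ≠ y) (hxz : x ≠ z) (hyz : y ≠ z) :
    (F.filter fun S => x ∈ S ∧ y ∈ S ∧ z ∈ S ∧ (T \ S).card = 1).card ≤ t * ch n b 1 := by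
  have hsub : (F.filter fun S => x ∈ S ∧ y ∈ S ∧ z ∈ S ∧ (T \ S).card = 1) ⊆ T.biUnion fun τ =>
      F.filter fun S => insert x (insert y (insert z (T.erase τ))) ⊆ S := by
    intro S hS
    obtain ⟨s1, s2, s3, s4, s5⟩ := mem_filter.1 hS
    obtain ⟨τ, hτ⟩ := card_eq_one.1 s5
    have h1 : τ ∈ T \ S := by rw [hτ]; exact mem_singleton_self τ
    refine mem_biUnion.2 ⟨τ, (mem_sdiff.1 h1).1, mem_filter.2 ⟨s1, insert_subset s2
      (insert_subset s3 (insert_subset s4 fun w hw => ?_))⟩⟩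
    by_contra hc
    have : w ∈ T \ S := mem_sdiff.2 ⟨mem_of_mem_erase hw, hc⟩
    rw [hτ] at this
    exact (mem_erase.1 hw).1 (mem_singleton.1 this)
  refine le_trans (card_le_card hsub) (le_trans card_biUnion_le ?_)
  rw [← hTc, ← smul_eq_mul, ← sum_const]
  refine sum_le_sum fun τ hτ => le_trans (card_supersets_le hU _) (le_of_eq ?_)
  have h1 : z ∉ T.erase τ := fun h => hz (mem_of_mem_erase h)
  have h2 : y ∉ insert z (T.erase τ) := by
    simp only [mem_insert, not_or]; exact ⟨hyz, fun h => hy (mem_of_mem_erase h)⟩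
  have h3 : x ∉ insert y (insert z (T.erase τ)) := by
    simp only [mem_insert, not_or]; exact ⟨hxy, hxz, fun h => hx (mem_of_mem_erase h)⟩
  have h4 := card_pos.2 ⟨τ, hτ⟩
  rw [card_insert_of_notMem h3, card_insert_of_notMem h2, card_insert_of_notMem h1,
    card_erase_of_mem hτ, hTc]
  unfold ch
  split_ifs with g1 g2 g2 <;> try omega
  congr 1; omega

theorem near_core {t : ℕ} {T S : Finset ℕ} (hTc : T.card = t) {x : ℕ} (hx : x ∉ T)
    (h1 : ¬ T ⊆ S) (h2 : ¬ (S ∩ insert x T).card < t) : x ∈ S ∧ (T \ S).card = 1 := by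
  have h0 : (T \ S).card ≠ 0 := fun h => h1 (sdiff_eq_empty_iff_subset.1 (card_eq_zero.1 h))
  have h3 := card_sdiff_add_card_inter T S
  by_cases hxS : x ∈ S
  · rw [inter_insert_of_mem hxS, card_insert_of_notMem (fun h => hx (mem_inter.1 h).2),
      inter_comm] at h2
    exact ⟨hxS, by omega⟩
  · rw [inter_insert_of_notMem hxS, inter_comm] at h2
    omega

theorem main_nat {n t b : ℕ} {F : Finset (Finset ℕ)} (hU : Unif n (t + (b + 1)) F)
    (hC : Cross t F F) (ht : 1 ≤ t) (hn : 10000 * (t + (b + 1)) * t ≤ n) {X : Finset ℕ}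
    (hX : X ⊆ range n) (hXc : X.card = t + (b + 1) + 2) :
    ∃ y ∈ X, dg F y ≤ (n - t - 1).choose b := by
  have hkt : t + (b + 1) ≤ (t + (b + 1)) * t := Nat.le_mul_of_pos_right _ ht
  have htb : t * b + t ≤ (t + (b + 1)) * t := by nlinarith
  have hn' : 10000 * ((t + (b + 1)) * t) ≤ n := by rwa [← mul_assoc]
  have hL : 4000 * t * b = 4000 * (t * b) := by ring
  have hM2 : 4000 * (t * ch n b 1) ≤ n.choose b := by
    have h2 := ch_step (m := n) (b := b) (L := 4000 * t) (by omega) 0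
    rwa [ch_zero, zero_add, mul_assoc] at h2
  have hMt : ch n b 1 ≤ t * ch n b 1 := Nat.le_mul_of_pos_left _ ht
  have hM1 : n.choose b ≤ 2 * (n - t - 1).choose b := by
    have h1 := choose_le_sub_add n b (t + 1)
    rw [← Nat.sub_sub, add_mul, one_mul] at h1
    omega
  obtain ⟨x, hx, hmin⟩ := exists_min_image X (dg F) (card_pos.1 (by omega))
  by_cases hk : ∀ y ∈ X, ((F.filter fun S => x ∈ S).filter fun G => y ∉ G).card ≤ (t + 4) * ch n b 1
  · exact ⟨x, hx, king (hU.mono (filter_subset _ _)) ht hn hX hXc hk⟩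
  push Not at hk
  obtain ⟨x', hx', hk⟩ := hk
  have hxx : x ≠ x' := by
    rintro rfl
    rw [filter_false_of_mem fun S hS => not_not.2 (mem_filter.1 hS).2] at hk
    simp at hk
  have e1 : dg (del F x') x = ((F.filter fun S => x ∈ S).filter fun G => x' ∉ G).card := by
    unfold dg del; rw [filter_comm]
  have e2 : dg (del F x') x ≤ dg (del F x) x' := by
    have a1 := card_filter_add_card_filter_not (s := F.filter fun S => x ∈ S) (fun S => x' ∈ S)
    have a2 := card_filter_add_card_filter_not (s := F.filter fun S => x' ∈ S) (fun S => x ∈ S)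
    have a3 := hmin x' hx'
    rw [filter_comm (fun S => x' ∈ S) (fun S => x ∈ S), filter_comm (fun S => x' ∈ S)] at a2
    rw [e1]
    unfold dg del at *
    omega
  have e3 : t + (b + 1) - 1 = t + b := by omega
  have e4 : (t + 4) * ch n b 1 = t * ch n b 1 + 4 * ch n b 1 := by ring
  have e5 : (t + 3) * ch n b 1 = t * ch n b 1 + 3 * ch n b 1 := by ring
  obtain ⟨T, hTc, b1, b2⟩ := exists_core (n := n) (e := b) (by omega) t
    (e3 ▸ (hU.del x').link x) (e3 ▸ (hU.del x).link x') (by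
      intro S hS S' hS'
      obtain ⟨s1, s2⟩ := mem_link.1 hS
      obtain ⟨s3, s4⟩ := mem_link.1 hS'
      obtain ⟨s5, s6⟩ := mem_del.1 s2
      obtain ⟨s7, s8⟩ := mem_del.1 s4
      have := hC _ s5 _ s7
      rwa [insert_inter_of_notMem s8,
        inter_insert_of_notMem (fun h => s6 (mem_insert_of_mem h))] at this)
    (by rw [card_link]; omega) (by rw [card_link]; omega)
  rw [card_link] at b1 b2
  obtain ⟨S0, hS0⟩ := card_pos.1
    (show 0 < ((link (del F x') x).filter fun A => T ⊆ A).card by omega)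
  obtain ⟨t1, t2⟩ := mem_filter.1 hS0
  obtain ⟨t3, t4⟩ := mem_link.1 t1
  obtain ⟨t5, t6⟩ := mem_del.1 t4
  have hxT : x ∉ T := fun h => t3 (t2 h)
  have hx'T : x' ∉ T := fun h => t6 (mem_insert_of_mem (t2 h))
  have hT : T ⊆ range n := t2.trans ((subset_insert _ _).trans (hU _ t5).1)
  have d1 : 4 * ch n b 1 < (F.filter fun G => insert x T ⊆ G).card := by
    have c1 := card_link_sup (del F x') x T
    have c2 : ((del F x').filter fun A => insert x T ⊆ A).card
        ≤ (F.filter fun G => insert x T ⊆ G).card :=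
      card_le_card (filter_subset_filter _ (filter_subset _ _))
    omega
  have d2 : 4 * ch n b 1 < (F.filter fun G => insert x' T ⊆ G).card := by
    have c1 := card_link_sup (del F x) x' T
    have c2 : ((del F x).filter fun A => insert x' T ⊆ A).card
        ≤ (F.filter fun G => insert x' T ⊆ G).card :=
      card_le_card (filter_subset_filter _ (filter_subset _ _))
    omega
  have x1 := dense_exc hU hC ht (by omega) (by rw [card_insert_of_notMem hxT, hTc]) d1
  have x2 := dense_exc hU hC ht (by omega) (by rw [card_insert_of_notMem hx'T, hTc]) d2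
  obtain ⟨z, hz, hz'⟩ := exists_mem_notMem_of_card_lt_card
    (show (insert x (insert x' T)).card < X.card by
      have := card_insert_le x (insert x' T)
      have := card_insert_le x' T
      omega)
  simp only [mem_insert, not_or] at hz'
  have w1 := card_three_le hU hTc hxT hx'T hz'.2.2 hxx (Ne.symm hz'.1) (Ne.symm hz'.2.1)
  by_cases d3 : 4 * ch n b 1 < (F.filter fun G => insert z T ⊆ G).card
  · have x3 := dense_exc hU hC ht (by omega) (by rw [card_insert_of_notMem hz'.2.2, hTc]) d3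
    obtain ⟨X', hX'1, hX'2⟩ := exists_subset_card_eq (s := X \ T) (n := b + 3) (by
      have := le_card_sdiff T X
      omega)
    have hsub : (F.filter fun S => ¬ T ⊆ S) ⊆
        ((F.filter fun G => (G ∩ insert x T).card < t) ∪
          (F.filter fun G => (G ∩ insert x' T).card < t)) ∪
        ((F.filter fun G => (G ∩ insert z T).card < t) ∪
          (F.filter fun S => x ∈ S ∧ x' ∈ S ∧ z ∈ S ∧ (T \ S).card = 1)) := by
      intro S hS
      obtain ⟨s1, s2⟩ := mem_filter.1 hS
      simp only [mem_union, mem_filter, s1, true_and]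
      by_contra hc
      simp only [not_or] at hc
      obtain ⟨⟨c1, c2⟩, c3, c4⟩ := hc
      exact c4 ⟨(near_core hTc hxT s2 c1).1, (near_core hTc hx'T s2 c2).1,
        (near_core hTc hz'.2.2 s2 c3).1, (near_core hTc hxT s2 c1).2⟩
    have h1 := le_trans (card_le_card hsub) (le_trans (card_union_le _ _)
      (Nat.add_le_add (card_union_le _ _) (card_union_le _ _)))
    obtain ⟨y, hy, hy'⟩ := fine_step hU hC ht hn hT hTc (X := X')
      (hX'1.trans (sdiff_subset.trans hX)) hX'2
      (Disjoint.mono_left hX'1 sdiff_disjoint) (by omega)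
    exact ⟨y, (mem_sdiff.1 (hX'1 hy)).1, hy'⟩
  · refine ⟨z, hz, ?_⟩
    have hsub : (F.filter fun S => z ∈ S) ⊆
        ((F.filter fun G => (G ∩ insert x T).card < t) ∪
          (F.filter fun G => (G ∩ insert x' T).card < t)) ∪
        ((F.filter fun G => insert z T ⊆ G) ∪
          (F.filter fun S => x ∈ S ∧ x' ∈ S ∧ z ∈ S ∧ (T \ S).card = 1)) := by
      intro S hS
      obtain ⟨s1, s3⟩ := mem_filter.1 hS
      simp only [mem_union, mem_filter, s1, true_and]
      by_contra hc
      simp only [not_or] at hc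
      obtain ⟨⟨c1, c2⟩, c3, c4⟩ := hc
      have s2 : ¬ T ⊆ S := fun h => c3 (insert_subset s3 h)
      exact c4 ⟨(near_core hTc hxT s2 c1).1, (near_core hTc hx'T s2 c2).1, s3,
        (near_core hTc hxT s2 c1).2⟩
    have h1 := le_trans (card_le_card hsub) (le_trans (card_union_le _ _)
      (Nat.add_le_add (card_union_le _ _) (card_union_le _ _)))
    unfold dg
    omega

end Pool.Agent.MP_217c9a_co

end MrgPart7

-- marker of a merged file
example : 731051 + 47755 = 731051 + 47755 := rfl
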